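import Mathlib
import Pool.Agent.Helper693.RF.Defs

namespace H693RF.RG

open MvPolynomial

/-! ### definitions for part G (helper26) -/

/-- the maximal ideal of a point -/
noncomputable def ptI {L : Type*} [Field L] {m : ℕ} (ξ : Fin m → L) : Ideal (MvPolynomial (Fin m) L) :=
  Ideal.span (Set.range fun j => (X j : MvPolynomial (Fin m) L) - C (ξ j))

/-- coefficientwise derivation: underlying function -/
noncomputable def coeffDerFun {L : Type*} [Field L] {m : ℕ} (δ : Derivation ℤ L L)
    (g : MvPolynomial (Fin m) L) : MvPolynomial (Fin m) L :=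
  ∑ s ∈ g.support, monomial s (δ (coeff s g))

theorem coeff_coeffDerFun {L : Type*} [Field L] {m : ℕ} (δ : Derivation ℤ L L)
    (g : MvPolynomial (Fin m) L) (s : Fin m →₀ ℕ) : coeff s (coeffDerFun δ g) = δ (coeff s g) := by
  classical
  unfold coeffDerFun
  rw [coeff_sum]
  simp only [coeff_monomial]
  by_cases hs : s ∈ g.support
  · rw [Finset.sum_ite_eq' ]
    simp [hs]
  · rw [Finset.sum_ite_eq']
    have : coeff s g = 0 := by simpa using hs
    simp [this]

/-- coefficientwise derivation, additive map -/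
noncomputable def coeffDerAdd {L : Type*} [Field L] {m : ℕ} (δ : Derivation ℤ L L) :
    MvPolynomial (Fin m) L →+ MvPolynomial (Fin m) L where
  toFun := coeffDerFun δ
  map_zero' := by ext s; simp [coeff_coeffDerFun]
  map_add' := fun f g => by ext s; simp [coeff_coeffDerFun]

/-- coefficientwise derivation -/
noncomputable def coeffDer {L : Type*} [Field L] {m : ℕ} (δ : Derivation ℤ L L) :
    Derivation ℤ (MvPolynomial (Fin m) L) (MvPolynomial (Fin m) L) :=
  Derivation.mk' (coeffDerAdd δ).toIntLinearMap (fun f g => by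
    ext s
    simp only [AddMonoidHom.coe_toIntLinearMap, coeffDerAdd, AddMonoidHom.coe_mk, ZeroHom.coe_mk,
      coeff_coeffDerFun, coeff_add, smul_eq_mul]
    rw [coeff_mul, coeff_mul, mul_comm g, coeff_mul, map_sum, ← Finset.sum_add_distrib]
    refine Finset.sum_congr rfl fun x _ => ?_
    simp only [coeff_coeffDerFun, Derivation.leibniz, smul_eq_mul]
    ring)

theorem coeff_coeffDer {L : Type*} [Field L] {m : ℕ} (δ : Derivation ℤ L L)
    (g : MvPolynomial (Fin m) L) (s : Fin m →₀ ℕ) : coeff s (coeffDer δ g) = δ (coeff s g) :=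
  coeff_coeffDerFun δ g s

theorem coeffDer_C {L : Type*} [Field L] {m : ℕ} (δ : Derivation ℤ L L) (c : L) :
    coeffDer (m := m) δ (C c) = C (δ c) := by
  classical
  ext s
  rw [coeff_coeffDer, coeff_C, coeff_C]
  split_ifs <;> simp

theorem coeffDer_X {L : Type*} [Field L] {m : ℕ} (δ : Derivation ℤ L L) (j : Fin m) :
    coeffDer (m := m) δ (X j) = 0 := by
  classical
  ext s
  rw [coeff_coeffDer, coeff_X]
  split_ifs <;> simp

/-- the Euler derivation -/
noncomputable def eulerDer (L : Type*) [Field L] (m : ℕ) :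
    Derivation L (MvPolynomial (Fin m) L) (MvPolynomial (Fin m) L) :=
  mkDerivation L X

/-- data of a local parametrisation modulo `T` -/
structure LocPar {L : Type*} [Field L] {r n q : ℕ} (ξ : Fin (r+1) → L)
    (G : Fin q → MvPolynomial (Fin (r+1)) L) (c : Fin q → Fin (r+1)) (e : Fin (n+1) → Fin (r+1))
    (T : ℕ) (φ : MvPolynomial (Fin (r+1)) L →ₐ[L] MvPolynomial (Fin (n+1)) L) : Prop where
  inj_e : Function.Injective e
  inj_c : Function.Injective c
  disj : ∀ a i, e a ≠ c i
  cover : ∀ j, (∃ a, j = e a) ∨ ∃ i, j = c i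
  det : (Matrix.of fun i j => eval ξ (pderiv (c j) (G i))).det ≠ 0
  free : ∀ a, φ (X (e a)) = C (ξ (e a)) + X a
  near : ∀ j, φ (X j) - C (ξ j) ∈ mI (n+1) L
  van : ∀ i, φ (G i) ∈ mI (n+1) L ^ T

end H693RF.RG
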