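import Mathlib
import Pool.Agent.Helper693.RF.Defs
import Pool.Agent.Helper26.RG.Defs

namespace H693RF.RG

open MvPolynomial


/-- TARGET -/
theorem span_powers {L : Type*} [Field L] [CharZero L] {m e : ℕ}
    (W : Submodule L (MvPolynomial (Fin m) L))
    (hW : ∀ b : Fin m → L, (∑ j, C (b j) * X j) ^ e ∈ W) :
    ∀ g ∈ homogeneousSubmodule (Fin m) L e, g ∈ W := by
  classical
  intro g hg
  by_contra hgW
  obtain ⟨φ, hφg, hφW⟩ := Submodule.exists_le_ker_of_notMem hgW
  apply hφg
  have hφ0 : ∀ w ∈ W, φ w = 0 := fun w hw => hφW hw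
  have hmon : ∀ k : Fin m → ℕ, (∏ j, (X j : MvPolynomial (Fin m) L) ^ k j) =
      monomial (Finsupp.equivFunOnFinite.symm k) 1 := by
    intro k
    rw [monomial_eq, C_1, one_mul, Finsupp.prod_fintype _ _ (fun i => pow_zero _)]
    rfl
  let P : MvPolynomial (Fin m) L := ∑ k ∈ Finset.piAntidiag Finset.univ e,
    monomial (Finsupp.equivFunOnFinite.symm k)
      ((Nat.multinomial Finset.univ k : L) * φ (∏ j, (X j : MvPolynomial (Fin m) L) ^ k j))
  have hP : P = 0 := by
    apply MvPolynomial.funext
    intro b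
    rw [map_zero, ← hφ0 _ (hW b), Finset.sum_pow_eq_sum_piAntidiag, map_sum, map_sum]
    refine Finset.sum_congr rfl fun k _ => ?_
    have e1 : ((Nat.multinomial Finset.univ k : ℕ) : MvPolynomial (Fin m) L) *
        ∏ j, (C (b j) * X j : MvPolynomial (Fin m) L) ^ k j =
        ((Nat.multinomial Finset.univ k : L) * ∏ j, b j ^ k j) •
          ∏ j, (X j : MvPolynomial (Fin m) L) ^ k j := by
      simp only [mul_pow]
      rw [Finset.prod_mul_distrib, smul_eq_C_mul, C_mul, map_prod, map_natCast, mul_assoc]
      simp only [map_pow]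
    rw [e1, map_smul, eval_monomial, Finsupp.prod_fintype _ _ (fun i => pow_zero _), smul_eq_mul]
    simp only [Finsupp.equivFunOnFinite_symm_apply_apply]
    ring
  have hall : ∀ s : Fin m →₀ ℕ, s.degree = e → φ (monomial s 1) = 0 := by
    intro s hs
    have h1 : coeff s P = 0 := by rw [hP, coeff_zero]
    have h2 : (s : Fin m → ℕ) ∈ Finset.piAntidiag (Finset.univ : Finset (Fin m)) e := by
      rw [Finset.mem_piAntidiag]
      refine ⟨?_, fun i _ => Finset.mem_univ i⟩
      rw [← hs, Finsupp.degree_eq_sum]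
    have h3 : coeff s P = (Nat.multinomial Finset.univ (s : Fin m → ℕ) : L) * φ (monomial s 1) := by
      simp only [P, coeff_sum, coeff_monomial]
      rw [Finset.sum_eq_single (s : Fin m → ℕ)]
      · have e3 : Finsupp.equivFunOnFinite.symm (s : Fin m → ℕ) = s := by ext; simp
        rw [if_pos e3, hmon, e3]
      · intro k _ hk
        rw [if_neg]
        intro h
        apply hk
        rw [← h]
        ext; simp
      · intro h; exact absurd h2 h
    rw [h3] at h1
    have h4 : (Nat.multinomial Finset.univ (s : Fin m → ℕ) : L) ≠ 0 := by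
      exact_mod_cast (Nat.multinomial_pos _ _).ne'
    exact (mul_eq_zero.1 h1).resolve_left h4
  rw [g.as_sum, map_sum]
  refine Finset.sum_eq_zero fun s hs => ?_
  have hd : s.degree = e := by
    have h5 := (mem_homogeneousSubmodule e g).1 hg (mem_support_iff.1 hs)
    exact (congrFun (congrArg DFunLike.coe (Finsupp.degree_eq_weight_one (R := ℕ))) s).trans h5
  have e2 : monomial s (coeff s g) = coeff s g • monomial s (1 : L) := by
    rw [smul_monomial, smul_eq_mul, mul_one]
  rw [e2, map_smul, hall s hd, smul_zero]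

end H693RF.RG
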