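import Mathlib
import Pool.Agent.Helper693.RF.Defs
import Pool.Agent.Helper26.RG.Defs
import Pool.Agent.Helper26.RG.SpanPow

namespace H693RF.RG

open MvPolynomial




/-- TARGET -/
theorem all_of_powers {L : Type*} [Field L] [CharZero L] {m d : ℕ}
    (J : Ideal (MvPolynomial (Fin m) L))
    (hW : ∀ b : Fin m → L, ∃ g' : MvPolynomial (Fin m) L, g'.totalDegree ≤ d ∧
      (∑ j, C (b j) * X j) ^ (d+1) - g' ∈ J) :
    ∀ g, ∃ g' : MvPolynomial (Fin m) L, g'.totalDegree ≤ d ∧ g - g' ∈ J := by
  classical
  let W : Submodule L (MvPolynomial (Fin m) L) :=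
    { carrier := {g | ∃ g' : MvPolynomial (Fin m) L, g'.totalDegree ≤ d ∧ g - g' ∈ J}
      zero_mem' := ⟨0, by simp, by simp⟩
      add_mem' := by
        rintro a b ⟨a', ha', ha⟩ ⟨b', hb', hb⟩
        refine ⟨a' + b', (totalDegree_add a' b').trans (max_le ha' hb'), ?_⟩
        have : a + b - (a' + b') = (a - a') + (b - b') := by ring
        rw [this]
        exact J.add_mem ha hb
      smul_mem' := by
        rintro c a ⟨a', ha', ha⟩
        refine ⟨c • a', (totalDegree_smul_le c a').trans ha', ?_⟩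
        rw [← smul_sub, smul_eq_C_mul]
        exact J.mul_mem_left _ ha }
  have hWmem : ∀ g, g ∈ W ↔ ∃ g' : MvPolynomial (Fin m) L, g'.totalDegree ≤ d ∧ g - g' ∈ J :=
    fun g => Iff.rfl
  have hlow : ∀ g : MvPolynomial (Fin m) L, g.totalDegree ≤ d → g ∈ W := by
    intro g hg
    exact ⟨g, hg, by rw [sub_self]; exact J.zero_mem⟩
  have hhom := span_powers (e := d + 1) W hW
  have hle : ∀ g : MvPolynomial (Fin m) L, g.totalDegree ≤ d + 1 → g ∈ W := by
    intro g hg
    rw [g.as_sum]
    refine W.sum_mem fun s hs => ?_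
    have h1 : (s.sum fun _ e => e) ≤ d + 1 := (le_totalDegree hs).trans hg
    rcases Nat.lt_or_ge (s.sum fun _ e => e) (d + 1) with h2 | h2
    · apply hlow
      exact (totalDegree_monomial_le _ _).trans (Nat.lt_succ_iff.1 h2)
    · apply hhom
      rw [mem_homogeneousSubmodule]
      apply isHomogeneous_monomial
      exact le_antisymm h1 h2
  intro g
  rw [← hWmem]
  induction g using MvPolynomial.induction_on with
  | C a => exact hlow _ (by rw [totalDegree_C]; exact Nat.zero_le _)
  | add p q hp hq => exact W.add_mem hp hq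
  | mul_X p j hp =>
    obtain ⟨p', hp', hpp⟩ := hp
    have h1 : p' * X j ∈ W := by
      apply hle
      refine (totalDegree_mul _ _).trans ?_
      rw [totalDegree_X]
      omega
    obtain ⟨p'', hp'', hpp''⟩ := h1
    refine ⟨p'', hp'', ?_⟩
    have h2 : p * X j - p'' = X j * (p - p') + (p' * X j - p'') := by ring
    rw [h2]
    exact J.add_mem (J.mul_mem_left _ hpp) hpp''

end H693RF.RG
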