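import Mathlib
import Pool.Agent.Helper693.RF.Defs
import Pool.Agent.Helper26.RG.Defs

namespace H693RF.RG

open MvPolynomial


theorem sub_C_eval_mem_ptI {L : Type*} [Field L] {m : ℕ} (ξ : Fin m → L)
    (f : MvPolynomial (Fin m) L) : f - C (eval ξ f) ∈ ptI ξ := by
  have hX : ∀ j, (X j : MvPolynomial (Fin m) L) - C (ξ j) ∈ ptI ξ := fun j =>
    Ideal.subset_span ⟨j, rfl⟩
  induction f using MvPolynomial.induction_on with
  | C a => simp
  | add p q hp hq =>
    have : p + q - C (eval ξ (p + q)) = (p - C (eval ξ p)) + (q - C (eval ξ q)) := by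
      rw [map_add, map_add]; ring
    rw [this]
    exact Ideal.add_mem _ hp hq
  | mul_X p j hp =>
    have : p * X j - C (eval ξ (p * X j)) = (p - C (eval ξ p)) * X j +
        C (eval ξ p) * (X j - C (ξ j)) := by
      rw [map_mul, eval_X, map_mul]; ring
    rw [this]
    exact Ideal.add_mem _ (Ideal.mul_mem_right _ _ hp) (Ideal.mul_mem_left _ _ (hX j))

theorem mem_ptI_iff {L : Type*} [Field L] {m : ℕ} (ξ : Fin m → L)
    (f : MvPolynomial (Fin m) L) : f ∈ ptI ξ ↔ eval ξ f = 0 := by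
  constructor
  · intro h
    have h1 : ptI ξ ≤ RingHom.ker (eval ξ) := by
      unfold ptI
      rw [Ideal.span_le]
      rintro _ ⟨j, rfl⟩
      simp [RingHom.mem_ker]
    exact h1 h
  · intro h
    have h1 := sub_C_eval_mem_ptI ξ f
    rw [h, map_zero, sub_zero] at h1
    exact h1

theorem ptI_isMaximal {L : Type*} [Field L] {m : ℕ} (ξ : Fin m → L) : (ptI ξ).IsMaximal := by
  have h1 : ptI ξ = RingHom.ker (eval ξ) := by
    ext f
    rw [mem_ptI_iff, RingHom.mem_ker]
  rw [h1]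
  apply RingHom.ker_isMaximal_of_surjective
  intro z
  exact ⟨C z, by simp⟩

theorem ptI_injective {L : Type*} [Field L] {m : ℕ} {ξ η : Fin m → L} (h : ptI ξ = ptI η) :
    ξ = η := by
  funext j
  have h1 : (X j : MvPolynomial (Fin m) L) - C (η j) ∈ ptI ξ := by
    rw [h]
    exact Ideal.subset_span ⟨j, rfl⟩
  rw [mem_ptI_iff] at h1
  simp only [map_sub, eval_X, eval_C] at h1
  exact sub_eq_zero.1 h1

theorem ptI_sup_eq_top {L : Type*} [Field L] {m : ℕ} {ξ η : Fin m → L} (h : ξ ≠ η) :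
    ptI ξ ⊔ ptI η = ⊤ :=
  (ptI_isMaximal ξ).coprime_of_ne (ptI_isMaximal η) (fun h' => h (ptI_injective h'))

theorem prod_sup_le {R : Type*} [CommRing R] {ι : Type*} (s : Finset ι) (J : Ideal R)
    (I : ι → Ideal R) : ∏ i ∈ s, (J ⊔ I i) ≤ J ⊔ ∏ i ∈ s, I i := by
  classical
  induction s using Finset.induction_on with
  | empty => simp
  | insert a s ha ih =>
    rw [Finset.prod_insert ha, Finset.prod_insert ha]
    refine (Ideal.mul_mono_right ih).trans ?_
    rw [Ideal.sup_mul, Ideal.mul_sup, Ideal.mul_sup]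
    refine sup_le (sup_le ?_ ?_) (sup_le ?_ ?_)
    · exact Ideal.mul_le_left.trans le_sup_left
    · exact Ideal.mul_le_left.trans le_sup_left
    · exact Ideal.mul_le_right.trans le_sup_left
    · exact le_sup_right

theorem zeros_finite {L : Type*} [Field L] {m : ℕ}
    (J : Ideal (MvPolynomial (Fin m) L)) (hfin : Module.Finite L (MvPolynomial (Fin m) L ⧸ J)) :
    {ξ : Fin m → L | ∀ F ∈ J, eval ξ F = 0}.Finite := by
  classical
  have hj : ∀ j : Fin m, ∃ p : Polynomial L, p ≠ 0 ∧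
      Polynomial.aeval (X j : MvPolynomial (Fin m) L) p ∈ J := by
    intro j
    have hint : IsIntegral L (Ideal.Quotient.mk J (X j)) := Algebra.IsIntegral.isIntegral _
    obtain ⟨p, hp, hp0⟩ := hint
    refine ⟨p, hp.ne_zero, ?_⟩
    rw [← Ideal.Quotient.eq_zero_iff_mem]
    rw [← Polynomial.aeval_def] at hp0
    have h1 : Ideal.Quotient.mk J (Polynomial.aeval (X j : MvPolynomial (Fin m) L) p) =
        Polynomial.aeval (Ideal.Quotient.mk J (X j)) p := by
      have := Polynomial.aeval_algHom_apply (Ideal.Quotient.mkₐ L J) (X j : MvPolynomial (Fin m) L) p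
      exact this.symm
    rw [h1, hp0]
  choose p hp0 hpJ using hj
  refine Set.Finite.subset (Set.Finite.pi' (fun j => (p j).roots.toFinset.finite_toSet)) ?_
  intro ξ hξ j
  have h1 := hξ _ (hpJ j)
  have h2 : eval ξ (Polynomial.aeval (X j : MvPolynomial (Fin m) L) (p j)) =
      Polynomial.eval (ξ j) (p j) := by
    have := Polynomial.aeval_algHom_apply (MvPolynomial.aeval ξ : MvPolynomial (Fin m) L →ₐ[L] L)
      (X j : MvPolynomial (Fin m) L) (p j)
    rw [aeval_X] at this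
    rw [← Polynomial.coe_aeval_eq_eval, this]
    rfl
  rw [h2] at h1
  simp only [Finset.mem_coe, Multiset.mem_toFinset]
  rw [Polynomial.mem_roots (hp0 j)]
  exact h1

/-- TARGET -/
theorem artin_part {L : Type*} [Field L] [IsAlgClosed L] {m : ℕ}
    (J : Ideal (MvPolynomial (Fin m) L)) (hfin : Module.Finite L (MvPolynomial (Fin m) L ⧸ J)) :
    ∃ Z : Finset (Fin m → L), (∀ ξ, ξ ∈ Z ↔ ∀ F ∈ J, eval ξ F = 0) ∧
      ∃ T0 : ℕ, (∀ g, (∀ ξ ∈ Z, g ∈ J ⊔ ptI ξ ^ T0) → g ∈ J) ∧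
        ∀ ξ, ∀ N, T0 ≤ N → ptI ξ ^ N ≤ J ⊔ ptI ξ ^ (N+1) := by
  classical
  have hZf := zeros_finite J hfin
  let Z := hZf.toFinset
  have hZ : ∀ ξ, ξ ∈ Z ↔ ∀ F ∈ J, eval ξ F = 0 := fun ξ => hZf.mem_toFinset
  have hrad : ∏ ξ ∈ Z, ptI ξ ≤ J.radical := by
    rw [← MvPolynomial.vanishingIdeal_zeroLocus_eq_radical (K := L) J]
    intro f hf x hx
    have hx' : x ∈ Z := by
      rw [hZ]
      intro F hF
      exact hx F hF
    have h1 : ∏ ξ ∈ Z, ptI ξ ≤ ptI x := Ideal.prod_le_inf.trans (Finset.inf_le hx')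
    have h2 := (mem_ptI_iff x f).1 (h1 hf)
    exact h2
  obtain ⟨T0, hT0⟩ := Ideal.exists_pow_le_of_le_radical_of_fg hrad (IsNoetherian.noetherian _)
  rw [← Finset.prod_pow] at hT0
  refine ⟨Z, hZ, T0, ?_, ?_⟩
  · intro g hg
    have hcop : (Z : Set (Fin m → L)).Pairwise
        (Function.onFun IsCoprime (fun ξ => J ⊔ ptI ξ ^ T0)) := by
      intro ξ _ η _ hne
      rw [Function.onFun, Ideal.isCoprime_iff_sup_eq, eq_top_iff,
        ← Ideal.pow_sup_pow_eq_top (m := T0) (n := T0) (ptI_sup_eq_top hne)]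
      exact sup_le_sup le_sup_right le_sup_right
    have h1 := Ideal.prod_eq_iInf_of_pairwise_isCoprime hcop
    have h2 : g ∈ ⨅ ξ ∈ Z, (J ⊔ ptI ξ ^ T0) := by
      simp only [Ideal.mem_iInf]
      exact hg
    rw [← h1] at h2
    exact (sup_le le_rfl hT0) (prod_sup_le Z J (fun ξ => ptI ξ ^ T0) h2)
  · intro ξ N hN
    by_cases hξ : ξ ∈ Z
    · set O : Ideal (MvPolynomial (Fin m) L) := ∏ η ∈ Z.erase ξ, ptI η ^ T0 with hO
      have h1 : ptI ξ ^ T0 * O ≤ J := by
        rw [hO, Finset.mul_prod_erase Z (fun η => ptI η ^ T0) hξ]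
        exact hT0
      have h2 : O ⊔ ptI ξ = ⊤ := by
        apply Ideal.prod_sup_eq_top
        intro η hη
        exact Ideal.pow_sup_eq_top (ptI_sup_eq_top (Finset.ne_of_mem_erase hη))
      calc ptI ξ ^ N = ptI ξ ^ N * (O ⊔ ptI ξ) := by rw [h2, Ideal.mul_top]
        _ = ptI ξ ^ N * O ⊔ ptI ξ ^ (N + 1) := by rw [Ideal.mul_sup, pow_succ]
        _ ≤ J ⊔ ptI ξ ^ (N + 1) := by
          apply sup_le_sup _ le_rfl
          exact (Ideal.mul_mono_left (Ideal.pow_le_pow_right hN)).trans h1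
    · have h1 : ¬ J ≤ ptI ξ := by
        intro h
        apply hξ
        rw [hZ]
        intro F hF
        exact (mem_ptI_iff ξ F).1 (h hF)
      have h2 : J ⊔ ptI ξ = ⊤ := by
        have := (ptI_isMaximal ξ)
        by_contra hne
        have h3 := this.eq_of_le hne le_sup_right
        apply h1
        rw [h3]
        exact le_sup_left
      rw [Ideal.sup_pow_eq_top h2]
      exact le_top

end H693RF.RG
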