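import Mathlib
import Pool.Agent.Helper693.RF.Defs
import Pool.Agent.Helper26.RG.Defs

namespace H693RF.RG

open MvPolynomial


section aux
open scoped TensorProduct

/-- derivation of the polynomial ring with values in `L`, prescribed on the variables -/
theorem exists_der_adjoin {𝕜 L σ : Type*} [Field 𝕜] [Field L] [Algebra 𝕜 L]
    (v : σ → L) (hv : AlgebraicIndependent 𝕜 v) (f : σ → L) :
    ∃ D : Derivation 𝕜 (Algebra.adjoin 𝕜 (Set.range v)) L,
      ∀ i, D ⟨v i, Algebra.subset_adjoin ⟨i, rfl⟩⟩ = f i := by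
  classical
  let e := hv.aevalEquiv
  letI : Module (MvPolynomial σ 𝕜) L := Module.compHom L (e.toRingEquiv.toRingHom : MvPolynomial σ 𝕜 →+* Algebra.adjoin 𝕜 (Set.range v))
  have hsmul : ∀ (q : MvPolynomial σ 𝕜) (x : L), q • x = e q • x := fun q x => rfl
  haveI : IsScalarTower 𝕜 (MvPolynomial σ 𝕜) L := by
    constructor
    intro c q x
    rw [hsmul, hsmul, map_smul, smul_assoc]
  let D0 : Derivation 𝕜 (MvPolynomial σ 𝕜) L := mkDerivation 𝕜 f
  let D1 : Derivation 𝕜 (Algebra.adjoin 𝕜 (Set.range v)) L :=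
    Derivation.mk' (D0.toLinearMap.comp e.symm.toLinearMap) (by
      intro x y
      simp only [LinearMap.comp_apply, AlgEquiv.toLinearMap_apply, map_mul]
      change D0 (e.symm x * e.symm y) = x • D0 (e.symm y) + y • D0 (e.symm x)
      rw [Derivation.leibniz, hsmul, hsmul, AlgEquiv.apply_symm_apply, AlgEquiv.apply_symm_apply])
  refine ⟨D1, fun i => ?_⟩
  change D0 (e.symm _) = f i
  have h1 : e (X i) = ⟨v i, Algebra.subset_adjoin ⟨i, rfl⟩⟩ := by
    apply Subtype.ext
    have := hv.algebraMap_aevalEquiv (X i)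
    rw [aeval_X] at this
    exact this
  rw [← h1, AlgEquiv.symm_apply_apply]
  exact mkDerivation_X _ _ _

end aux

open scoped IntermediateField.algebraAdjoinAdjoin in
theorem exists_der_basis {𝕜 L σ : Type*} [Field 𝕜] [Field L] [Algebra 𝕜 L] [CharZero 𝕜]
    (v : σ → L) (hv : IsTranscendenceBasis 𝕜 v) (f : σ → L) :
    ∃ D : Derivation 𝕜 L L, ∀ i, D (v i) = f i := by
  classical
  obtain ⟨D1, hD1⟩ := exists_der_adjoin v hv.1 f
  have h1 : Algebra.FormallyEtale (Algebra.adjoin 𝕜 (Set.range v))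
      (IntermediateField.adjoin 𝕜 (Set.range v)) :=
    .of_isLocalization (nonZeroDivisors _)
  haveI := hv.isAlgebraic_field
  haveI : CharZero (IntermediateField.adjoin 𝕜 (Set.range v)) :=
    charZero_of_injective_algebraMap (algebraMap 𝕜 _).injective
  have h2 : Algebra.FormallyEtale (IntermediateField.adjoin 𝕜 (Set.range v)) L :=
    Algebra.FormallyEtale.of_isSeparable _ L
  have h3 : Algebra.FormallyEtale (Algebra.adjoin 𝕜 (Set.range v)) L :=
    .comp _ (IntermediateField.adjoin 𝕜 (Set.range v)) _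
  let E := KaehlerDifferential.tensorKaehlerEquivOfFormallyEtale 𝕜
    (Algebra.adjoin 𝕜 (Set.range v)) L
  let F : _ →ₗ[L] L := LinearMap.liftBaseChange L D1.liftKaehlerDifferential
  let D : Derivation 𝕜 L L := (F.comp E.symm.toLinearMap).compDer (KaehlerDifferential.D 𝕜 L)
  refine ⟨D, fun i => ?_⟩
  change F (E.symm (KaehlerDifferential.D 𝕜 L (v i))) = f i
  have h4 := KaehlerDifferential.tensorKaehlerEquivOfFormallyEtale_symm_D_algebraMap 𝕜
    (Algebra.adjoin 𝕜 (Set.range v)) L ⟨v i, Algebra.subset_adjoin ⟨i, rfl⟩⟩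
  have h5 : algebraMap (Algebra.adjoin 𝕜 (Set.range v)) L
    ⟨v i, Algebra.subset_adjoin ⟨i, rfl⟩⟩ = v i := rfl
  rw [h5] at h4
  rw [h4, LinearMap.liftBaseChange_tmul, one_smul, Derivation.liftKaehlerDifferential_comp_D, hD1]

/-- TARGET -/
theorem exists_dual_derivations {𝕜 L ι : Type*} [Field 𝕜] [Field L] [Algebra 𝕜 L] [CharZero 𝕜]
    (a : ι → L) (ha : AlgebraicIndependent 𝕜 a) :
    ∃ D : ι → Derivation 𝕜 L L, (∀ i, D i (a i) = 1) ∧ ∀ i j, i ≠ j → D i (a j) = 0 := by
  classical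
  obtain ⟨t, hst, ht⟩ := exists_isTranscendenceBasis_superset (R := 𝕜) (s := Set.range a)
    ((algebraicIndependent_subtype_range ha.injective).2 ha)
  have hex : ∀ i, ∃ D : Derivation 𝕜 L L, ∀ j : t, D j = if (j : L) = a i then 1 else 0 := by
    intro i
    exact exists_der_basis ((↑) : t → L) ht (fun j => if (j : L) = a i then 1 else 0)
  choose D hD using hex
  refine ⟨D, fun i => ?_, fun i j hij => ?_⟩
  · rw [hD i ⟨a i, hst ⟨i, rfl⟩⟩]; simp
  · rw [hD i ⟨a j, hst ⟨j, rfl⟩⟩]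
    rw [if_neg]
    intro h
    exact hij (ha.injective h).symm

end H693RF.RG
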