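import Mathlib
import Pool.Agent.Helper693.RF.Defs
import Pool.Agent.Helper26.RG.Defs
import Pool.Agent.Helper26.RG.DualDer

namespace H693RF.RG

open MvPolynomial




theorem der_aeval {𝕜 L : Type*} [Field 𝕜] [Field L] [Algebra 𝕜 L] {m : ℕ}
    (D : Derivation 𝕜 L L) (y : Fin m → L) (F : MvPolynomial (Fin m) 𝕜) :
    D (aeval y F) = ∑ j, aeval y (pderiv j F) * D (y j) := by
  classical
  induction F using MvPolynomial.induction_on with
  | C a => simp
  | add p q hp hq =>
    simp only [map_add, hp, hq, add_mul, Finset.sum_add_distrib]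
  | mul_X p i hp =>
    have h1 : ∀ j, aeval y (pderiv j (p * X i)) * D (y j) =
        y i * (aeval y (pderiv j p) * D (y j)) + aeval y p * ((if j = i then 1 else 0) * D (y j)) := by
      intro j
      rw [Derivation.leibniz, pderiv_X]
      simp only [smul_eq_mul, map_add, map_mul, aeval_X]
      by_cases hij : j = i
      · subst hij
        simp
        ring
      · have : (Pi.single j (1 : MvPolynomial (Fin m) 𝕜) : Fin m → MvPolynomial (Fin m) 𝕜) i = 0 := by
          rw [Pi.single_eq_of_ne (Ne.symm hij)]
        rw [this, if_neg hij]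
        simp
        ring
    simp only [h1]
    rw [Finset.sum_add_distrib, ← Finset.mul_sum, ← Finset.mul_sum, ← hp, map_mul, aeval_X,
      Derivation.leibniz]
    simp only [smul_eq_mul, ite_mul, one_mul, zero_mul]
    rw [Finset.sum_ite_eq' Finset.univ i (fun j => D (y j))]
    simp
    ring

/-- TARGET -/
theorem centre_lemma {𝕜 L : Type*} [Field 𝕜] [Field L] [Algebra 𝕜 L] [CharZero 𝕜]
    {r n q K : ℕ} (hK : n + 1 < K) (P : Ideal (MvPolynomial (Fin (r+1)) 𝕜))
    (hP : ConeData 𝕜 r n q P) (hsm : SmoothAt L q P)
    (a : Fin K → Fin (r+1) → L)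
    (ha : AlgebraicIndependent 𝕜 (fun ij : Fin K × Fin (r+1) => a ij.1 ij.2))
    (y : Fin (r+1) → L) (hy : ∀ F ∈ P, aeval y F = 0) (h0 : ∀ l, ∑ j, a l j * y j = 0) :
    y = 0 := by
  classical
  by_contra hne
  obtain ⟨j0, hj0⟩ : ∃ j, y j ≠ 0 := by
    by_contra hcon
    push Not at hcon
    exact hne (funext hcon)
  obtain ⟨D, hD1, hD2⟩ := exists_dual_derivations _ ha
  obtain ⟨G, c, hG, hdet⟩ := hsm y hne hy
  set τ : Fin K → Fin (r+1) → L := fun l m => D (l, j0) (y m) with hτ
  -- the Jacobian
  set J : Matrix (Fin q) (Fin (r+1)) L := Matrix.of fun i m => aeval y (pderiv m (G i)) with hJ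
  have hker : ∀ l, J.mulVecLin (τ l) = 0 := by
    intro l
    ext i
    rw [Matrix.mulVecLin_apply]
    have h1 := der_aeval (D (l, j0)) y (G i)
    rw [hy _ (hG i), map_zero] at h1
    show ∑ m, J i m * τ l m = 0
    rw [h1]
    rfl
  have hpair : ∀ l l', ∑ m, a l' m * τ l m = if l = l' then - y j0 else 0 := by
    intro l l'
    have h1 : D (l, j0) (∑ m, a l' m * y m) = 0 := by rw [h0, map_zero]
    rw [map_sum] at h1
    simp only [Derivation.leibniz, smul_eq_mul] at h1
    rw [Finset.sum_add_distrib] at h1
    have h2 : ∑ m, y m * D (l, j0) (a l' m) = if l = l' then y j0 else 0 := by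
      by_cases hl : l = l'
      · subst hl
        rw [if_pos rfl, Finset.sum_eq_single j0]
        · have := hD1 (l, j0)
          simp only at this
          rw [this, mul_one]
        · intro m _ hm
          have := hD2 (l, j0) (l, m) (by
            intro h
            exact hm (Prod.mk.inj h).2.symm)
          simp only at this
          rw [this, mul_zero]
        · intro h
          exact absurd (Finset.mem_univ _) h
      · rw [if_neg hl]
        refine Finset.sum_eq_zero fun m _ => ?_
        have := hD2 (l, j0) (l', m) (by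
          intro h
          exact hl (Prod.mk.inj h).1)
        simp only at this
        rw [this, mul_zero]
    rw [h2] at h1
    have h3 : ∑ m, a l' m * τ l m = - (if l = l' then y j0 else 0) := by
      have h4 : ∑ m, a l' m * τ l m = ∑ m, a l' m * D (l, j0) (y m) := rfl
      rw [h4]
      linear_combination h1
    rw [h3]
    split_ifs <;> simp
  have hli : LinearIndependent L τ := by
    rw [Fintype.linearIndependent_iff]
    intro g hg l'
    have h1 : ∑ m, a l' m * (∑ l, g l • τ l) m = 0 := by
      rw [hg]
      simp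
    have h2 : ∑ m, a l' m * (∑ l, g l • τ l) m = ∑ l, g l * ∑ m, a l' m * τ l m := by
      simp only [Finset.sum_apply, Pi.smul_apply, smul_eq_mul, Finset.mul_sum]
      rw [Finset.sum_comm]
      refine Finset.sum_congr rfl fun l _ => Finset.sum_congr rfl fun m _ => ?_
      ring
    rw [h2] at h1
    simp only [hpair] at h1
    rw [Finset.sum_eq_single l'] at h1
    · rw [if_pos rfl] at h1
      rcases mul_eq_zero.1 h1 with h | h
      · exact h
      · exact absurd (neg_eq_zero.1 h) hj0
    · intro l _ hl
      rw [if_neg hl, mul_zero]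
    · intro h
      exact absurd (Finset.mem_univ _) h
  have hli' : LinearIndependent L (fun l => (⟨τ l, LinearMap.mem_ker.2 (hker l)⟩ :
      LinearMap.ker J.mulVecLin)) :=
    LinearIndependent.of_comp (LinearMap.ker J.mulVecLin).subtype hli
  have hcard := hli'.fintype_card_le_finrank
  rw [Fintype.card_fin] at hcard
  -- surjectivity
  have hsurj : Function.Surjective J.mulVecLin := by
    intro w
    set J' : Matrix (Fin q) (Fin q) L := Matrix.of fun i j => aeval y (pderiv (c j) (G i)) with hJ'
    set u : Fin q → L := J'⁻¹.mulVec w with hu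
    refine ⟨∑ j, u j • Pi.single (c j) 1, ?_⟩
    have h1 : J'.mulVec u = w := by
      rw [hu, Matrix.mulVec_mulVec, Matrix.mul_nonsing_inv _ (isUnit_iff_ne_zero.2 hdet),
        Matrix.one_mulVec]
    rw [← h1, map_sum]
    ext i
    rw [Finset.sum_apply]
    show _ = ∑ j, J' i j * u j
    refine Finset.sum_congr rfl fun j _ => ?_
    rw [map_smul, Matrix.mulVecLin_apply, Matrix.mulVec_single_one, Pi.smul_apply, smul_eq_mul,
      mul_comm]
    rfl
  have hrk := LinearMap.finrank_range_add_finrank_ker J.mulVecLin
  rw [LinearMap.range_eq_top.2 hsurj, finrank_top, Module.finrank_fin_fun,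
    Module.finrank_fin_fun] at hrk
  have := hP.hr
  omega

end H693RF.RG
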