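import Mathlib
import Pool.Agent.Helper693.RF.Defs
import Pool.Agent.Helper26.RG.Defs

namespace H693RF.RG

open MvPolynomial


/-- TARGET -/
theorem exists_compl {r n q : ℕ} (hr : n + q = r) (c : Fin q → Fin (r+1))
    (hc : Function.Injective c) :
    ∃ e : Fin (n+1) → Fin (r+1), Function.Injective e ∧ (∀ a i, e a ≠ c i) ∧
      ∀ j, (∃ a, j = e a) ∨ ∃ i, j = c i := by
  classical
  have hcard : (Finset.univ \ Finset.univ.image c : Finset (Fin (r+1))).card = n + 1 := by
    rw [Finset.card_sdiff_of_subset (Finset.subset_univ _), Finset.card_image_of_injective _ hc,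
      Finset.card_univ, Finset.card_univ, Fintype.card_fin, Fintype.card_fin]
    omega
  refine ⟨(Finset.univ \ Finset.univ.image c : Finset (Fin (r+1))).orderEmbOfFin hcard,
    (Finset.orderEmbOfFin _ hcard).injective, ?_, ?_⟩
  · intro a i h
    have h1 := Finset.orderEmbOfFin_mem _ hcard a
    rw [Finset.mem_sdiff] at h1
    apply h1.2
    rw [h]
    exact Finset.mem_image_of_mem c (Finset.mem_univ i)
  · intro j
    by_cases hj : ∃ i, j = c i
    · exact Or.inr hj
    · left
      have h1 : j ∈ (Finset.univ \ Finset.univ.image c : Finset (Fin (r+1))) := by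
        rw [Finset.mem_sdiff]
        refine ⟨Finset.mem_univ _, fun h => ?_⟩
        obtain ⟨i, -, hi⟩ := Finset.mem_image.1 h
        exact hj ⟨i, hi.symm⟩
      have h2 : j ∈ Set.range ((Finset.univ \ Finset.univ.image c :
          Finset (Fin (r+1))).orderEmbOfFin hcard) := by
        rw [Finset.range_orderEmbOfFin]
        exact h1
      obtain ⟨a, ha⟩ := h2
      exact ⟨a, ha.symm⟩

end H693RF.RG
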