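import Mathlib
import Pool.Agent.Helper693.RF.Defs
import Pool.Agent.Helper26.RG.Defs

namespace H693RF.RG

open MvPolynomial




theorem aux_der_pow {R : Type*} [CommRing R] (D : Derivation ℤ R R) (I : Ideal R) (t : ℕ) :
    ∀ x ∈ I ^ (t + 1), D x ∈ I ^ t := by
  induction t with
  | zero => intro x _; simp
  | succ s ih =>
    intro x hx
    rw [pow_succ] at hx
    refine Submodule.mul_induction_on hx ?_ ?_
    · intro a ha b hb
      rw [Derivation.leibniz, smul_eq_mul, smul_eq_mul]
      refine Ideal.add_mem _ (Ideal.mul_mem_right _ _ ha) ?_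
      rw [pow_succ, mul_comm b]
      exact Ideal.mul_mem_mul (ih a ha) hb
    · intro a b ha hb
      rw [map_add]
      exact Ideal.add_mem _ ha hb

theorem aux_unit_cancel {L : Type*} [Field L] {m : ℕ} {I : Ideal (MvPolynomial (Fin m) L)} {u : L}
    (hu : u ≠ 0) {x y : MvPolynomial (Fin m) L} (hx : x ∈ I) (N : ℕ) :
    (C u + x) * y ∈ I ^ N → y ∈ I ^ N := by
  induction N with
  | zero => intro _; simp
  | succ N ih =>
    intro h
    have h1 : y ∈ I ^ N := ih (Ideal.pow_le_pow_right (Nat.le_succ N) h)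
    have h2 : x * y ∈ I ^ (N + 1) := by
      rw [pow_succ, mul_comm x]
      exact Ideal.mul_mem_mul h1 hx
    have h3 : C u * y ∈ I ^ (N + 1) := by
      have : C u * y = (C u + x) * y - x * y := by ring
      rw [this]
      exact Ideal.sub_mem _ h h2
    have h4 : y = C u⁻¹ * (C u * y) := by
      rw [← mul_assoc, ← C_mul, inv_mul_cancel₀ hu, C_1, one_mul]
    rw [h4]
    exact Ideal.mul_mem_left _ _ h3

/-- TARGET -/
theorem der_transfer {L : Type*} [Field L] {r n q : ℕ} {ξ : Fin (r+1) → L}
    {G : Fin q → MvPolynomial (Fin (r+1)) L} {c : Fin q → Fin (r+1)} {e : Fin (n+1) → Fin (r+1)}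
    {T : ℕ} {φ : MvPolynomial (Fin (r+1)) L →ₐ[L] MvPolynomial (Fin (n+1)) L}
    (h : LocPar ξ G c e T φ)
    (δ : Derivation ℤ L L) (ee : Fin (r+1) → MvPolynomial (Fin (r+1)) L)
    (hD' : ∀ i, φ (coeffDer δ (G i) + mkDerivation L ee (G i)) ∈ mI (n+1) L ^ (T-1)) :
    ∃ D : Derivation ℤ (MvPolynomial (Fin (n+1)) L) (MvPolynomial (Fin (n+1)) L),
      ∀ g, D (φ g) - φ (coeffDer δ g + mkDerivation L ee g) ∈ mI (n+1) L ^ (T-1) := by
  classical
  set m := mI (n+1) L with hm
  have hφC : ∀ l : L, φ (C l) = C l := fun l => by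
    have := φ.commutes l
    simpa [MvPolynomial.algebraMap_eq] using this
  set D : Derivation ℤ (MvPolynomial (Fin (n+1)) L) (MvPolynomial (Fin (n+1)) L) :=
    coeffDer δ + (mkDerivation L (fun a => φ (ee (e a)) - C (δ (ξ (e a))))).restrictScalars ℤ with hD
  have hDval : ∀ p, D p = coeffDer δ p +
      mkDerivation L (fun a => φ (ee (e a)) - C (δ (ξ (e a)))) p := fun p => rfl
  refine ⟨D, ?_⟩
  set Δ : MvPolynomial (Fin (r+1)) L → MvPolynomial (Fin (n+1)) L :=
    fun g => D (φ g) - φ (coeffDer δ g + mkDerivation L ee g) with hΔ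
  have hΔC : ∀ l : L, Δ (C l) = 0 := fun l => by
    simp only [hΔ]
    rw [hφC, hDval, coeffDer_C, coeffDer_C, derivation_C, derivation_C, add_zero, add_zero, hφC,
      sub_self]
  have hΔe : ∀ a, Δ (X (e a)) = 0 := fun a => by
    simp only [hΔ]
    rw [h.free, hDval, map_add, map_add, coeffDer_C, coeffDer_X, coeffDer_X, derivation_C,
      mkDerivation_X, mkDerivation_X]
    ring
  have hΔadd : ∀ g g', Δ (g + g') = Δ g + Δ g' := fun g g' => by
    simp only [hΔ, map_add]
    ring
  have hΔmul : ∀ g g', Δ (g * g') = φ g * Δ g' + φ g' * Δ g := fun g g' => by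
    simp only [hΔ, map_mul, Derivation.leibniz, smul_eq_mul, map_add]
    ring
  have hsum : ∀ g, Δ g = ∑ j, φ (pderiv j g) * Δ (X j) := by
    intro g
    induction g using MvPolynomial.induction_on with
    | C l => rw [hΔC]; simp
    | add p p' hp hp' =>
      rw [hΔadd, hp, hp', ← Finset.sum_add_distrib]
      refine Finset.sum_congr rfl fun j _ => ?_
      rw [map_add, map_add]; ring
    | mul_X p k hp =>
      rw [hΔmul]
      conv_lhs => rw [hp]
      rw [Finset.mul_sum]
      have e1 : ∀ j, φ (pderiv j (p * X k)) * Δ (X j) =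
          φ (X k) * (φ (pderiv j p) * Δ (X j)) + (if j = k then φ p * Δ (X k) else 0) := by
        intro j
        rw [pderiv_mul, map_add, map_mul, map_mul]
        by_cases hjk : j = k
        · subst hjk
          rw [pderiv_X_self, map_one, if_pos rfl]
          ring
        · rw [pderiv_X_of_ne (Ne.symm hjk), map_zero, if_neg hjk]
          ring
      simp only [e1]
      rw [Finset.sum_add_distrib, Finset.sum_ite_eq' Finset.univ k]
      simp only [Finset.mem_univ, if_true]
      ring
  have hnear : ∀ g, φ g - C (eval ξ g) ∈ m := by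
    intro g
    induction g using MvPolynomial.induction_on with
    | C l => rw [hφC]; simp
    | add p p' hp hp' =>
      have : φ (p + p') - C (eval ξ (p + p')) = (φ p - C (eval ξ p)) + (φ p' - C (eval ξ p')) := by
        rw [map_add, map_add, C_add]; ring
      rw [this]
      exact Ideal.add_mem _ hp hp'
    | mul_X p k hp =>
      have : φ (p * X k) - C (eval ξ (p * X k)) =
          φ p * (φ (X k) - C (ξ k)) + C (ξ k) * (φ p - C (eval ξ p)) := by
        rw [map_mul, map_mul, eval_X, C_mul]; ring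
      rw [this]
      exact Ideal.add_mem _ (Ideal.mul_mem_left _ _ (h.near k)) (Ideal.mul_mem_left _ _ hp)
  have hΔG : ∀ i, Δ (G i) ∈ m ^ (T - 1) := by
    intro i
    refine Ideal.sub_mem _ ?_ (hD' i)
    rcases Nat.eq_zero_or_pos T with hT | hT
    · subst hT; simp
    · obtain ⟨t, rfl⟩ := Nat.exists_eq_add_of_lt hT
      have h1 := h.van i
      simp only [zero_add, Nat.add_sub_cancel] at h1 ⊢
      exact aux_der_pow D m t _ h1
  set M : Matrix (Fin q) (Fin q) (MvPolynomial (Fin (r+1)) L) :=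
    Matrix.of fun i j => pderiv (c j) (G i) with hM
  set A : Matrix (Fin q) (Fin q) (MvPolynomial (Fin (n+1)) L) := φ.toRingHom.mapMatrix M with hA
  have hAval : ∀ i j, A i j = φ (pderiv (c j) (G i)) := fun i j => rfl
  have hdetA : A.det = φ M.det := by
    have h0 := RingHom.map_det φ.toRingHom M
    exact h0.symm
  have hu : eval ξ M.det ≠ 0 := by
    rw [RingHom.map_det]
    exact h.det
  have hAw : ∀ i, (A.mulVec fun k => Δ (X (c k))) i = Δ (G i) := by
    intro i
    rw [hsum (G i)]
    simp only [Matrix.mulVec, dotProduct, hAval]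
    refine Fintype.sum_of_injective c h.inj_c _ _ (fun j hj => ?_) (fun k => rfl)
    rcases h.cover j with ⟨a, rfl⟩ | ⟨k, rfl⟩
    · rw [hΔe, mul_zero]
    · exact absurd ⟨k, rfl⟩ hj
  have hwc : ∀ k, Δ (X (c k)) ∈ m ^ (T - 1) := by
    intro k
    have h1 : A.det * Δ (X (c k)) = ∑ i, A.adjugate k i * Δ (G i) := by
      have h2 : A.adjugate.mulVec (A.mulVec fun k => Δ (X (c k))) =
          A.det • (fun k => Δ (X (c k))) := by
        rw [Matrix.mulVec_mulVec, Matrix.adjugate_mul, Matrix.smul_mulVec, Matrix.one_mulVec]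
      have h3 := congrFun h2 k
      rw [Pi.smul_apply, smul_eq_mul] at h3
      rw [← h3]
      simp only [Matrix.mulVec, dotProduct]
      refine Finset.sum_congr rfl fun i _ => ?_
      rw [← hAw i]
      rfl
    have h4 : A.det * Δ (X (c k)) ∈ m ^ (T - 1) := by
      rw [h1]
      exact Ideal.sum_mem _ fun i _ => Ideal.mul_mem_left _ _ (hΔG i)
    have h5 : A.det = C (eval ξ M.det) + (φ M.det - C (eval ξ M.det)) := by
      rw [hdetA]; ring
    rw [h5] at h4
    exact aux_unit_cancel hu (hnear _) _ h4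
  intro g
  change Δ g ∈ m ^ (T - 1)
  rw [hsum g]
  refine Ideal.sum_mem _ fun j _ => Ideal.mul_mem_left _ _ ?_
  rcases h.cover j with ⟨a, rfl⟩ | ⟨k, rfl⟩
  · rw [hΔe]; exact Ideal.zero_mem _
  · exact hwc k

end H693RF.RG
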