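import Mathlib
import Pool.Agent.Helper693.RF.Defs
import Pool.Agent.Helper26.RG.Defs

namespace H693RF.RG

open MvPolynomial


theorem crt_13388 {L : Type*} [Field L] {r n N : ℕ} (Z : Finset (Fin (r+1) → L))
    (φ : (Fin (r+1) → L) → (MvPolynomial (Fin (r+1)) L →ₐ[L] MvPolynomial (Fin (n+1)) L))
    (hsurj : ∀ ξ ∈ Z, Function.Surjective (φ ξ))
    (hpt : ∀ ξ ∈ Z, ∀ j, φ ξ (X j) - C (ξ j) ∈ mI (n+1) L)
    (ξ0 : Fin (r+1) → L) (hξ0 : ξ0 ∈ Z) (x : MvPolynomial (Fin (n+1)) L) :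
    ∃ g : MvPolynomial (Fin (r+1)) L, φ ξ0 g - x ∈ mI (n+1) L ^ N ∧
      ∀ ξ ∈ Z, ξ ≠ ξ0 → φ ξ g ∈ mI (n+1) L ^ N := by
  classical
  have hmap : ∀ ξ ∈ Z, ∀ a ∈ ptI ξ ^ N, φ ξ a ∈ mI (n+1) L ^ N := by
    intro ξ hξ a ha
    have h1 : Ideal.map (φ ξ) (ptI ξ) ≤ mI (n+1) L := by
      unfold ptI
      rw [Ideal.map_span, Ideal.span_le]
      rintro _ ⟨_, ⟨j, rfl⟩, rfl⟩
      have h2 : φ ξ (X j - C (ξ j)) = φ ξ (X j) - C (ξ j) := by
        rw [map_sub]
        congr 1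
        exact (φ ξ).commutes (ξ j)
      rw [SetLike.mem_coe, h2]
      exact hpt ξ hξ j
    have h3 : φ ξ a ∈ Ideal.map (φ ξ) (ptI ξ ^ N) := Ideal.mem_map_of_mem (φ ξ) ha
    rw [Ideal.map_pow] at h3
    exact Ideal.pow_right_mono h1 N h3
  have hcop : ∀ ξ : Fin (r+1) → L, ξ ≠ ξ0 → IsCoprime (ptI ξ0) (ptI ξ) := by
    intro ξ hne
    obtain ⟨j, hj⟩ : ∃ j, ξ j ≠ ξ0 j := by
      by_contra hcon
      push Not at hcon
      exact hne (funext hcon)
    rw [Ideal.isCoprime_iff_exists]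
    have hd : ξ j - ξ0 j ≠ 0 := sub_ne_zero.mpr hj
    refine ⟨C ((ξ j - ξ0 j)⁻¹) * (X j - C (ξ0 j)), Ideal.mul_mem_left _ _
      (Ideal.subset_span ⟨j, rfl⟩), -C ((ξ j - ξ0 j)⁻¹) * (X j - C (ξ j)), Ideal.mul_mem_left _ _
      (Ideal.subset_span ⟨j, rfl⟩), ?_⟩
    have e1 : C ((ξ j - ξ0 j)⁻¹) * (X j - C (ξ0 j)) + -C ((ξ j - ξ0 j)⁻¹) * (X j - C (ξ j)) =
        C ((ξ j - ξ0 j)⁻¹ * (ξ j - ξ0 j)) := by
      rw [C_mul, C_sub]
      ring
    rw [e1, inv_mul_cancel₀ hd, C_1]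
  have hc2 : IsCoprime (ptI ξ0 ^ N) (∏ ξ ∈ Z.erase ξ0, ptI ξ ^ N) :=
    IsCoprime.prod_right fun ξ hξ => (hcop ξ (Finset.ne_of_mem_erase hξ)).pow
  rw [Ideal.isCoprime_iff_exists] at hc2
  obtain ⟨a, ha, b, hb, hab⟩ := hc2
  obtain ⟨g0, hg0⟩ := hsurj ξ0 hξ0 x
  refine ⟨g0 * b, ?_, ?_⟩
  · have hb' : b = 1 - a := by rw [← hab]; ring
    have e1 : φ ξ0 (g0 * b) - x = -(x * φ ξ0 a) := by
      rw [map_mul, hg0, hb', map_sub, map_one]
      ring
    rw [e1]
    exact neg_mem (Ideal.mul_mem_left _ _ (hmap ξ0 hξ0 a ha))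
  · intro ξ hξ hne
    rw [map_mul]
    apply Ideal.mul_mem_left
    apply hmap ξ hξ
    have h1 : (∏ ξ ∈ Z.erase ξ0, ptI ξ ^ N) ≤ (Z.erase ξ0).inf (fun ξ => ptI ξ ^ N) :=
      Ideal.prod_le_inf
    exact (h1.trans (Finset.inf_le (Finset.mem_erase.mpr ⟨hne, hξ⟩))) hb

theorem all_13388 {L : Type*} [Field L] {r n K N : ℕ} (Z : Finset (Fin (r+1) → L))
    (φ : (Fin (r+1) → L) → (MvPolynomial (Fin (r+1)) L →ₐ[L] MvPolynomial (Fin (n+1)) L))
    (f : (Fin (r+1) → L) → Fin K → MvPolynomial (Fin (n+1)) L)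
    (I : (Fin (r+1) → L) → Ideal (MvPolynomial (Fin (n+1)) L))
    (hsurj : ∀ ξ ∈ Z, Function.Surjective (φ ξ))
    (hpt : ∀ ξ ∈ Z, ∀ j, φ ξ (X j) - C (ξ j) ∈ mI (n+1) L)
    (hI : ∀ ξ ∈ Z, mI (n+1) L ^ N ≤ I ξ)
    (hmul : ∀ l j, ∃ μ : Fin K → L, ∀ ξ ∈ Z,
      (fun l' => (if l' = l then φ ξ (X j) else 0) - C (μ l')) ∈ derSub (I ξ) (f ξ))
    (w : Z → (Fin K → MvPolynomial (Fin (n+1)) L)) :
    ∃ lam : Fin K → L, ∀ ξ : Z, w ξ - (fun l => C (lam l)) ∈ derSub (I ξ) (f ξ) := by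
  classical
  let W : AddSubmonoid (Z → (Fin K → MvPolynomial (Fin (n+1)) L)) :=
    { carrier := {w | ∃ lam : Fin K → L, ∀ ξ : Z, w ξ - (fun l => C (lam l)) ∈ derSub (I ξ) (f ξ)}
      zero_mem' := by
        refine ⟨0, fun ξ => ?_⟩
        have : (0 : Z → (Fin K → MvPolynomial (Fin (n+1)) L)) ξ -
            (fun l => C ((0 : Fin K → L) l)) = 0 := by
          ext l
          simp
        rw [this]
        exact Submodule.zero_mem _
      add_mem' := by
        rintro a b ⟨la, ha⟩ ⟨lb, hb⟩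
        refine ⟨la + lb, fun ξ => ?_⟩
        have : (a + b) ξ - (fun l => C ((la + lb) l)) =
            (a ξ - (fun l => C (la l))) + (b ξ - (fun l => C (lb l))) := by
          funext l
          simp only [Pi.add_apply, Pi.sub_apply, C_add]
          ring
        rw [this]
        exact Submodule.add_mem _ (ha ξ) (hb ξ) }
  have hW : ∀ w, w ∈ W ↔ ∃ lam : Fin K → L, ∀ ξ : Z, w ξ - (fun l => C (lam l)) ∈
    derSub (I ξ) (f ξ) := fun _ => Iff.rfl
  have hder : ∀ w : Z → (Fin K → MvPolynomial (Fin (n+1)) L), (∀ ξ : Z, w ξ ∈ derSub (I ξ) (f ξ)) →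
      w ∈ W := by
    intro w hw
    refine ⟨0, fun ξ => ?_⟩
    have : w ξ - (fun l => C ((0 : Fin K → L) l)) = w ξ := by
      funext l
      simp
    rw [this]
    exact hw ξ
  have hX : ∀ j, ∀ w ∈ W, (fun ξ : Z => φ ξ (X j) • w ξ) ∈ W := by
    rintro j w ⟨lam, hlam⟩
    choose μ hμ using fun l => hmul l j
    refine ⟨fun l' => ∑ l, lam l * μ l l', fun ξ => ?_⟩
    have e1 : φ ξ (X j) • w ξ - (fun l' => C (∑ l, lam l * μ l l')) =
        φ ξ (X j) • (w ξ - (fun l => C (lam l))) +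
        ∑ l, (C (lam l) : MvPolynomial (Fin (n+1)) L) •
          (fun l' => (if l' = l then φ ξ (X j) else 0) - C (μ l l')) := by
      funext l'
      simp only [Pi.add_apply, Pi.sub_apply, Pi.smul_apply, Finset.sum_apply, smul_eq_mul, mul_sub,
        Finset.sum_sub_distrib, mul_ite, mul_zero, Finset.sum_ite_eq, Finset.mem_univ, if_true,
        map_sum, C_mul]
      ring
    rw [e1]
    refine Submodule.add_mem _ (Submodule.smul_mem _ _ (hlam ξ)) (Submodule.sum_mem _ fun l _ => ?_)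
    exact Submodule.smul_mem _ _ (hμ l ξ ξ.2)
  have hg : ∀ g : MvPolynomial (Fin (r+1)) L, ∀ w ∈ W, (fun ξ : Z => φ ξ g • w ξ) ∈ W := by
    intro g
    induction g using MvPolynomial.induction_on with
    | C a =>
      rintro w ⟨lam, hlam⟩
      refine ⟨fun l => a * lam l, fun ξ => ?_⟩
      have hC : φ ξ (C a) = C a := (φ ξ).commutes a
      have e1 : φ ξ (C a) • w ξ - (fun l => C (a * lam l)) =
          (C a : MvPolynomial (Fin (n+1)) L) • (w ξ - (fun l => C (lam l))) := by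
        rw [hC]
        funext l
        simp only [Pi.sub_apply, Pi.smul_apply, smul_eq_mul, C_mul]
        ring
      rw [e1]
      exact Submodule.smul_mem _ _ (hlam ξ)
    | add p q hp hq =>
      intro w hw
      have e1 : (fun ξ : Z => φ ξ (p + q) • w ξ) = (fun ξ : Z => φ ξ p • w ξ) +
          (fun ξ : Z => φ ξ q • w ξ) := by
        funext ξ
        simp only [Pi.add_apply, map_add, add_smul]
      rw [e1]
      exact W.add_mem (hp w hw) (hq w hw)
    | mul_X p j hp =>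
      intro w hw
      have e1 : (fun ξ : Z => φ ξ (p * X j) • w ξ) =
          (fun ξ : Z => φ ξ p • ((fun ξ : Z => φ ξ (X j) • w ξ) ξ)) := by
        funext ξ
        simp only [map_mul, mul_smul]
      rw [e1]
      exact hp _ (hX j w hw)
  have hone : ∀ l : Fin K, (fun _ : Z => (Pi.single l 1 : Fin K → MvPolynomial (Fin (n+1)) L)) ∈ W := by
    intro l
    refine ⟨Pi.single l 1, fun ξ => ?_⟩
    have e1 : (Pi.single l 1 : Fin K → MvPolynomial (Fin (n+1)) L) -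
        (fun l' => C ((Pi.single l 1 : Fin K → L) l')) = 0 := by
      funext l'
      rcases eq_or_ne l' l with rfl | hne
      · simp
      · simp [Pi.single_eq_of_ne hne]
    simp only
    rw [e1]
    exact Submodule.zero_mem _
  have hsing : ∀ (ξ0 : Z) (l : Fin K) (x : MvPolynomial (Fin (n+1)) L),
      (fun ξ : Z => if ξ = ξ0 then (Pi.single l x : Fin K → MvPolynomial (Fin (n+1)) L) else 0) ∈ W := by
    intro ξ0 l x
    obtain ⟨g, hg1, hg2⟩ := crt_13388 (N := N) Z φ hsurj hpt ξ0 ξ0.2 x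
    have e1 : (fun ξ : Z => if ξ = ξ0 then (Pi.single l x : Fin K → MvPolynomial (Fin (n+1)) L) else 0) =
        (fun ξ : Z => φ ξ g • (Pi.single l 1 : Fin K → MvPolynomial (Fin (n+1)) L)) +
        (fun ξ : Z => (Pi.single l ((if ξ = ξ0 then x else 0) - φ ξ g) :
          Fin K → MvPolynomial (Fin (n+1)) L)) := by
      funext ξ l'
      simp only [Pi.add_apply, Pi.smul_apply, smul_eq_mul]
      rcases eq_or_ne l' l with rfl | hne
      · by_cases h : ξ = ξ0
        · simp [h]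
        · simp [h]
      · by_cases h : ξ = ξ0
        · simp [h, Pi.single_eq_of_ne hne]
        · simp [h, Pi.single_eq_of_ne hne]
    rw [e1]
    refine W.add_mem (hg g _ (hone l)) (hder _ fun ξ => ?_)
    refine ⟨0, fun i => ?_⟩
    simp only [Derivation.coe_zero, Pi.zero_apply, sub_zero]
    rcases eq_or_ne i l with rfl | hne
    · rw [Pi.single_eq_same]
      apply hI ξ ξ.2
      by_cases h : ξ = ξ0
      · rw [if_pos h, h, ← neg_sub]
        exact neg_mem hg1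
      · rw [if_neg h, zero_sub]
        exact neg_mem (hg2 ξ ξ.2 (fun h' => h (Subtype.ext h')))
    · rw [Pi.single_eq_of_ne hne]
      exact Ideal.zero_mem _
  have hfin : w ∈ W := by
    have e1 : w = ∑ ξ0 : Z, ∑ l : Fin K, (fun ξ : Z => if ξ = ξ0 then
        (Pi.single l (w ξ0 l) : Fin K → MvPolynomial (Fin (n+1)) L) else 0) := by
      funext ξ l'
      rw [Finset.sum_apply, Finset.sum_apply]
      rw [Finset.sum_eq_single ξ]
      · rw [Finset.sum_apply, Finset.sum_apply, Finset.sum_eq_single l']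
        · simp
        · intro b _ hb
          simp [Pi.single_eq_of_ne hb.symm]
        · intro h
          exact absurd (Finset.mem_univ _) h
      · intro b _ hb
        rw [Finset.sum_apply, Finset.sum_apply]
        apply Finset.sum_eq_zero
        intro l _
        rw [if_neg hb.symm]
        rfl
      · intro h
        exact absurd (Finset.mem_univ _) h
    rw [e1]
    exact W.sum_mem fun ξ0 _ => W.sum_mem fun l _ => hsing ξ0 l _
  exact (hW w).mp hfin

/-- TARGET -/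
theorem dimension_bound {L : Type*} [Field L] {r n K N : ℕ} (Z : Finset (Fin (r+1) → L))
    (φ : (Fin (r+1) → L) → (MvPolynomial (Fin (r+1)) L →ₐ[L] MvPolynomial (Fin (n+1)) L))
    (f : (Fin (r+1) → L) → Fin K → MvPolynomial (Fin (n+1)) L)
    (I : (Fin (r+1) → L) → Ideal (MvPolynomial (Fin (n+1)) L))
    (hsurj : ∀ ξ ∈ Z, Function.Surjective (φ ξ))
    (hpt : ∀ ξ ∈ Z, ∀ j, φ ξ (X j) - C (ξ j) ∈ mI (n+1) L)
    (hI : ∀ ξ ∈ Z, mI (n+1) L ^ N ≤ I ξ)
    (hmul : ∀ l j, ∃ μ : Fin K → L, ∀ ξ ∈ Z,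
      (fun l' => (if l' = l then φ ξ (X j) else 0) - C (μ l')) ∈ derSub (I ξ) (f ξ))
    (p : Fin K → L) (hp : p ≠ 0)
    (hE : ∀ ξ ∈ Z, (fun l => (C (p l) : MvPolynomial (Fin (n+1)) L)) ∈ derSub (I ξ) (f ξ)) :
    ∑ ξ ∈ Z, Module.finrank L ((Fin K → MvPolynomial (Fin (n+1)) L) ⧸
      (derSub (I ξ) (f ξ)).restrictScalars L) + 1 ≤ K := by
  classical
  let cst : (Fin K → L) →ₗ[L] (Fin K → MvPolynomial (Fin (n+1)) L) :=
    { toFun := fun lam l => C (lam l)
      map_add' := fun a b => by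
        funext l
        simp only [Pi.add_apply, C_add]
      map_smul' := fun a b => by
        funext l
        simp only [Pi.smul_apply, smul_eq_mul, RingHom.id_apply, C_mul, smul_eq_C_mul] }
  let Θ : (Fin K → L) →ₗ[L] ((ξ : Z) → ((Fin K → MvPolynomial (Fin (n+1)) L) ⧸
      (derSub (I ξ) (f ξ)).restrictScalars L)) :=
    LinearMap.pi fun ξ : Z => (Submodule.mkQ ((derSub (I ξ) (f ξ)).restrictScalars L)).comp cst
  have hΘ : ∀ lam (ξ : Z), Θ lam ξ = Submodule.Quotient.mk (fun l => C (lam l)) := fun _ _ => rfl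
  have hs : Function.Surjective Θ := by
    intro v
    have hv : ∀ ξ : Z, ∃ w : Fin K → MvPolynomial (Fin (n+1)) L,
        (Submodule.Quotient.mk w : (Fin K → MvPolynomial (Fin (n+1)) L) ⧸
          (derSub (I ξ) (f ξ)).restrictScalars L) = v ξ := fun ξ =>
      Submodule.Quotient.mk_surjective _ (v ξ)
    choose w hw using hv
    obtain ⟨lam, hlam⟩ := all_13388 Z φ f I hsurj hpt hI hmul w
    refine ⟨lam, ?_⟩
    funext ξ
    rw [hΘ, ← hw ξ, eq_comm, Submodule.Quotient.eq]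
    exact hlam ξ
  have hker : p ∈ LinearMap.ker Θ := by
    rw [LinearMap.mem_ker]
    funext ξ
    rw [hΘ]
    simp only [Pi.zero_apply]
    rw [Submodule.Quotient.mk_eq_zero]
    exact hE ξ ξ.2
  have hfinite : ∀ ξ : Z, Module.Finite L ((Fin K → MvPolynomial (Fin (n+1)) L) ⧸
      (derSub (I ξ) (f ξ)).restrictScalars L) := by
    intro ξ
    apply Module.Finite.of_surjective ((LinearMap.proj ξ).comp Θ)
    intro v
    obtain ⟨lam, hlam⟩ := hs (Function.update 0 ξ v)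
    refine ⟨lam, ?_⟩
    rw [LinearMap.comp_apply, hlam, LinearMap.proj_apply, Function.update_self]
  have h1 := LinearMap.finrank_range_add_finrank_ker Θ
  rw [LinearMap.range_eq_top.mpr hs, finrank_top, Module.finrank_fin_fun,
    Module.finrank_pi_fintype] at h1
  have h2 : 0 < Module.finrank L (LinearMap.ker Θ) := by
    have : Nontrivial (LinearMap.ker Θ) :=
      ⟨⟨p, hker⟩, 0, fun h => hp (congrArg Subtype.val h)⟩
    exact Module.finrank_pos
  have h3 : ∑ ξ ∈ Z, Module.finrank L ((Fin K → MvPolynomial (Fin (n+1)) L) ⧸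
      (derSub (I ξ) (f ξ)).restrictScalars L) =
      ∑ ξ : Z, Module.finrank L ((Fin K → MvPolynomial (Fin (n+1)) L) ⧸
      (derSub (I ξ) (f ξ)).restrictScalars L) := by
    rw [← Finset.sum_coe_sort Z (fun ξ => Module.finrank L ((Fin K → MvPolynomial (Fin (n+1)) L) ⧸
      (derSub (I ξ) (f ξ)).restrictScalars L))]
  rw [h3]
  omega

end H693RF.RG
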