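import Mathlib
import Pool.Agent.Helper693.RF.Defs
import Pool.Agent.Helper26.RG.Defs

namespace H693RF.RG

open MvPolynomial


theorem map_mem_extI {𝕜 L : Type*} [Field 𝕜] [Field L] [Algebra 𝕜 L] {r : ℕ}
    {P : Ideal (MvPolynomial (Fin (r+1)) 𝕜)} {F : MvPolynomial (Fin (r+1)) 𝕜} (hF : F ∈ P) :
    MvPolynomial.map (algebraMap 𝕜 L) F ∈ extI L P :=
  Ideal.mem_map_of_mem _ hF

theorem smul_mem_extI {𝕜 L : Type*} [Field 𝕜] [Field L] [Algebra 𝕜 L] {r : ℕ}
    {P : Ideal (MvPolynomial (Fin (r+1)) 𝕜)} {F : MvPolynomial (Fin (r+1)) L} (c : L)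
    (hF : F ∈ extI L P) : c • F ∈ extI L P := by
  rw [MvPolynomial.smul_eq_C_mul]
  exact Ideal.mul_mem_left _ _ hF

/-- TARGET -/
theorem extI_eq_span {𝕜 L : Type*} [Field 𝕜] [Field L] [Algebra 𝕜 L] {r : ℕ}
    (P : Ideal (MvPolynomial (Fin (r+1)) 𝕜)) (F : MvPolynomial (Fin (r+1)) L) :
    F ∈ extI L P ↔ F ∈ Submodule.span L
      ((MvPolynomial.map (algebraMap 𝕜 L) : MvPolynomial (Fin (r+1)) 𝕜 → _) '' (P : Set (MvPolynomial (Fin (r+1)) 𝕜))) := by
  constructor
  · intro hF
    have hmul : ∀ (p x : MvPolynomial (Fin (r+1)) L), x ∈ Submodule.span L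
        ((MvPolynomial.map (algebraMap 𝕜 L) : MvPolynomial (Fin (r+1)) 𝕜 → _) ''
          (P : Set (MvPolynomial (Fin (r+1)) 𝕜))) → p * x ∈ Submodule.span L
        ((MvPolynomial.map (algebraMap 𝕜 L) : MvPolynomial (Fin (r+1)) 𝕜 → _) ''
          (P : Set (MvPolynomial (Fin (r+1)) 𝕜))) := by
      intro p x hx
      induction p using MvPolynomial.induction_on' with
      | monomial u a =>
        induction hx using Submodule.span_induction with
        | mem y hy =>
          obtain ⟨F', hF', rfl⟩ := hy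
          have e1 : (monomial u) a * MvPolynomial.map (algebraMap 𝕜 L) F' =
              a • MvPolynomial.map (algebraMap 𝕜 L) ((monomial u) 1 * F') := by
            rw [map_mul, map_monomial, map_one, ← smul_mul_assoc, smul_monomial, smul_eq_mul,
              mul_one]
          rw [e1]
          exact Submodule.smul_mem _ _ (Submodule.subset_span
            ⟨_, Ideal.mul_mem_left _ _ hF', rfl⟩)
        | zero => rw [mul_zero]; exact Submodule.zero_mem _
        | add y z _ _ hy hz => rw [mul_add]; exact Submodule.add_mem _ hy hz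
        | smul c y _ hy => rw [mul_smul_comm]; exact Submodule.smul_mem _ _ hy
      | add p q hp hq => rw [add_mul]; exact Submodule.add_mem _ hp hq
    unfold extI at hF
    rw [Ideal.map] at hF
    induction hF using Submodule.span_induction with
    | mem y hy => exact Submodule.subset_span hy
    | zero => exact Submodule.zero_mem _
    | add y z _ _ hy hz => exact Submodule.add_mem _ hy hz
    | smul c y _ hy => exact hmul c y hy
  · intro hF
    induction hF using Submodule.span_induction with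
    | mem y hy =>
      obtain ⟨F', hF', rfl⟩ := hy
      exact map_mem_extI hF'
    | zero => exact Ideal.zero_mem _
    | add y z _ _ hy hz => exact Ideal.add_mem _ hy hz
    | smul c y _ hy => exact smul_mem_extI c hy

/-- TARGET -/
theorem extI_eval {𝕜 L : Type*} [Field 𝕜] [Field L] [Algebra 𝕜 L] {r : ℕ}
    (P : Ideal (MvPolynomial (Fin (r+1)) 𝕜)) (ξ : Fin (r+1) → L) (hξ : ∀ F ∈ P, aeval ξ F = 0) :
    ∀ F ∈ extI L P, eval ξ F = 0 := by
  intro F hF
  rw [extI_eq_span] at hF
  induction hF using Submodule.span_induction with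
  | mem y hy =>
    obtain ⟨F', hF', rfl⟩ := hy
    rw [eval_map]
    exact hξ F' hF'
  | zero => exact map_zero _
  | add y z _ _ hy hz => rw [map_add, hy, hz, add_zero]
  | smul c y _ hy => rw [MvPolynomial.smul_eq_C_mul, map_mul, hy, mul_zero]

/-- TARGET -/
theorem extI_coeffDer {𝕜 L : Type*} [Field 𝕜] [Field L] [Algebra 𝕜 L] {r : ℕ}
    (P : Ideal (MvPolynomial (Fin (r+1)) 𝕜)) (δ : Derivation 𝕜 L L) :
    ∀ F ∈ extI L P, coeffDer (δ.restrictScalars ℤ) F ∈ extI L P := by
  intro F hF
  rw [extI_eq_span] at hF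
  induction hF using Submodule.span_induction with
  | mem y hy =>
    obtain ⟨F', hF', rfl⟩ := hy
    have : coeffDer (δ.restrictScalars ℤ) (MvPolynomial.map (algebraMap 𝕜 L) F') = 0 := by
      ext s
      rw [coeff_coeffDer, coeff_map, coeff_zero]
      exact δ.map_algebraMap _
    rw [this]
    exact Ideal.zero_mem _
  | zero => rw [map_zero]; exact Ideal.zero_mem _
  | add y z _ _ hy hz => rw [map_add]; exact Ideal.add_mem _ hy hz
  | smul c y hy' hy =>
    rw [MvPolynomial.smul_eq_C_mul, Derivation.leibniz, smul_eq_mul, smul_eq_mul]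
    exact Ideal.add_mem _ (Ideal.mul_mem_left _ _ hy)
      (Ideal.mul_mem_right _ _ ((extI_eq_span P y).2 hy'))

theorem der_sum_apply {L : Type*} [Field L] {m : ℕ} {ι : Type*} (s : Finset ι)
    (D : ι → Derivation L (MvPolynomial (Fin m) L) (MvPolynomial (Fin m) L))
    (x : MvPolynomial (Fin m) L) : (∑ i ∈ s, D i) x = ∑ i ∈ s, D i x := by
  classical
  induction s using Finset.induction_on with
  | empty => simp
  | insert a s ha ih => rw [Finset.sum_insert ha, Finset.sum_insert ha, Derivation.add_apply, ih]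

theorem mkDerivation_eq_euler {L : Type*} [Field L] {m : ℕ} (F : MvPolynomial (Fin m) L) :
    mkDerivation L (X : Fin m → MvPolynomial (Fin m) L) F = ∑ i, X i * pderiv i F := by
  have h : mkDerivation L (X : Fin m → MvPolynomial (Fin m) L) =
      ∑ i, (X i : MvPolynomial (Fin m) L) • pderiv i := by
    refine derivation_ext fun j => ?_
    rw [mkDerivation_X, der_sum_apply]
    simp [pderiv_X, Pi.single_apply]
  rw [h, der_sum_apply]
  rfl

/-- TARGET -/
theorem extI_euler {𝕜 L : Type*} [Field 𝕜] [Field L] [Algebra 𝕜 L] {r : ℕ}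
    (P : Ideal (MvPolynomial (Fin (r+1)) 𝕜)) (hhom : ∀ F ∈ P, ∀ d, homogeneousComponent d F ∈ P) :
    ∀ F ∈ extI L P, mkDerivation L X F ∈ extI L P := by
  intro F hF
  rw [extI_eq_span] at hF
  induction hF using Submodule.span_induction with
  | mem y hy =>
    obtain ⟨F', hF', rfl⟩ := hy
    rw [← sum_homogeneousComponent F', map_sum, map_sum]
    refine Ideal.sum_mem _ fun d _ => ?_
    rw [mkDerivation_eq_euler,
      ((homogeneousComponent_isHomogeneous d F').map (algebraMap 𝕜 L)).sum_X_mul_pderiv]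
    rw [nsmul_eq_mul]
    exact Ideal.mul_mem_left _ _ (map_mem_extI (hhom F' hF' d))
  | zero => rw [map_zero]; exact Ideal.zero_mem _
  | add y z _ _ hy hz => rw [map_add]; exact Ideal.add_mem _ hy hz
  | smul c y _ hy => rw [Derivation.map_smul]; exact smul_mem_extI c hy

/-- TARGET -/
theorem extI_minors {𝕜 L : Type*} [Field 𝕜] [Field L] [Algebra 𝕜 L] {r n q : ℕ}
    (P : Ideal (MvPolynomial (Fin (r+1)) 𝕜)) (hP : ConeData 𝕜 r n q P)
    (G : Fin q → MvPolynomial (Fin (r+1)) 𝕜) (hG : ∀ i, G i ∈ P) (c : Fin q → Fin (r+1)) :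
    ∀ F ∈ extI L P, ∀ j : Fin (r+1), (Matrix.of fun (i k : Fin (q+1)) =>
      pderiv (Fin.snoc (α := fun _ => Fin (r+1)) c j k)
        (Fin.snoc (α := fun _ => MvPolynomial (Fin (r+1)) L)
          (fun i => MvPolynomial.map (algebraMap 𝕜 L) (G i)) F i)).det ∈ extI L P := by
  intro F hF j
  -- the determinant is linear in the last row
  set D : Fin (q+1) → MvPolynomial (Fin (r+1)) L := fun k =>
    (Matrix.of fun (i : Fin q) (l : Fin q) =>
      pderiv (Fin.snoc (α := fun _ => Fin (r+1)) c j (k.succAbove l))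
        (MvPolynomial.map (algebraMap 𝕜 L) (G i))).det with hD
  have hdet : ∀ F : MvPolynomial (Fin (r+1)) L, (Matrix.of fun (i k : Fin (q+1)) =>
      pderiv (Fin.snoc (α := fun _ => Fin (r+1)) c j k)
        (Fin.snoc (α := fun _ => MvPolynomial (Fin (r+1)) L)
          (fun i => MvPolynomial.map (algebraMap 𝕜 L) (G i)) F i)).det =
      ∑ k : Fin (q+1), (-1) ^ ((Fin.last q : ℕ) + (k : ℕ)) *
        pderiv (Fin.snoc (α := fun _ => Fin (r+1)) c j k) F * D k := by
    intro F
    rw [Matrix.det_succ_row _ (Fin.last q)]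
    refine Finset.sum_congr rfl fun k _ => ?_
    congr 1
    · rw [Matrix.of_apply, Fin.snoc_last]
    · rw [hD]
      congr 1
      ext i l
      simp only [Matrix.submatrix_apply, Matrix.of_apply, Fin.succAbove_last, Fin.snoc_castSucc]
  rw [hdet]
  rw [extI_eq_span] at hF
  induction hF using Submodule.span_induction with
  | mem y hy =>
    obtain ⟨F', hF', rfl⟩ := hy
    rw [← hdet]
    have h1 := hP.minors (Fin.snoc (α := fun _ => MvPolynomial (Fin (r+1)) 𝕜) G F') (by
      intro i
      refine Fin.lastCases ?_ (fun i => ?_) i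
      · rw [Fin.snoc_last]; exact hF'
      · rw [Fin.snoc_castSucc]; exact hG i) (Fin.snoc (α := fun _ => Fin (r+1)) c j)
    have h2 := map_mem_extI (L := L) h1
    rw [RingHom.map_det] at h2
    convert h2 using 2
    ext1 i k
    rw [Matrix.of_apply, RingHom.mapMatrix_apply, Matrix.map_apply, Matrix.of_apply, ← pderiv_map]
    congr 1
    refine Fin.lastCases ?_ (fun i => ?_) i
    · rw [Fin.snoc_last, Fin.snoc_last]
    · rw [Fin.snoc_castSucc, Fin.snoc_castSucc]
  | zero => simp
  | add y z _ _ hy hz =>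
    have : ∀ k : Fin (q+1), (-1) ^ ((Fin.last q : ℕ) + (k : ℕ)) *
        pderiv (Fin.snoc (α := fun _ => Fin (r+1)) c j k) (y + z) * D k =
        (-1) ^ ((Fin.last q : ℕ) + (k : ℕ)) *
        pderiv (Fin.snoc (α := fun _ => Fin (r+1)) c j k) y * D k +
        (-1) ^ ((Fin.last q : ℕ) + (k : ℕ)) *
        pderiv (Fin.snoc (α := fun _ => Fin (r+1)) c j k) z * D k := by
      intro k; rw [map_add]; ring
    rw [Finset.sum_congr rfl fun k _ => this k, Finset.sum_add_distrib]
    exact Ideal.add_mem _ hy hz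
  | smul a y _ hy =>
    have : ∀ k : Fin (q+1), (-1) ^ ((Fin.last q : ℕ) + (k : ℕ)) *
        pderiv (Fin.snoc (α := fun _ => Fin (r+1)) c j k) (a • y) * D k =
        C a * ((-1) ^ ((Fin.last q : ℕ) + (k : ℕ)) *
        pderiv (Fin.snoc (α := fun _ => Fin (r+1)) c j k) y * D k) := by
      intro k; rw [Derivation.map_smul, MvPolynomial.smul_eq_C_mul]; ring
    rw [Finset.sum_congr rfl fun k _ => this k, ← Finset.mul_sum]
    exact Ideal.mul_mem_left _ _ hy

end H693RF.RG
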