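import Mathlib
import Pool.Agent.Helper693.RF.Defs
import Pool.Agent.Helper26.RG.Defs

namespace H693RF.RG

open MvPolynomial


section fq
attribute [local instance] MvPolynomial.gradedAlgebra

private theorem fq_hc_mul {σ L : Type*} [Field L] (b h : MvPolynomial σ L) (hh : h.IsHomogeneous 1)
    (D : ℕ) : homogeneousComponent (D + 1) (b * h) = homogeneousComponent D b * h := by
  have h1 := DirectSum.coe_decompose_mul_add_of_right_mem (homogeneousSubmodule σ L) (i := D)
    (j := 1) (a := b) (b := h) hh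
  have h2 : ∀ (φ : MvPolynomial σ L) (i : ℕ),
      (DirectSum.decompose (homogeneousSubmodule σ L) φ i : MvPolynomial σ L) =
        homogeneousComponent i φ := fun φ i => decomposition.decompose'_apply φ i
  rw [h2, h2] at h1
  exact h1

private theorem fq_map_hc {𝕜 L σ : Type*} [Field 𝕜] [Field L] (f : 𝕜 →+* L)
    (F : MvPolynomial σ 𝕜) (d : ℕ) :
    homogeneousComponent d (MvPolynomial.map f F) = MvPolynomial.map f (homogeneousComponent d F) := by
  ext s
  rw [coeff_homogeneousComponent, coeff_map, coeff_map, coeff_homogeneousComponent]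
  split_ifs <;> simp

private theorem fq_ext_hom {𝕜 L : Type*} [Field 𝕜] [Field L] [Algebra 𝕜 L]
    {r : ℕ} (P : Ideal (MvPolynomial (Fin (r+1)) 𝕜))
    (hhom : ∀ F ∈ P, ∀ d, homogeneousComponent d F ∈ P) :
    (extI L P).IsHomogeneous (homogeneousSubmodule (Fin (r+1)) L) := by
  have h1 : extI L P = Ideal.span {G | ∃ F ∈ P, ∃ d, F.IsHomogeneous d ∧
      G = MvPolynomial.map (algebraMap 𝕜 L) F} := by
    apply le_antisymm
    · unfold extI
      rw [Ideal.map_le_iff_le_comap]
      intro F hF
      rw [Ideal.mem_comap, ← sum_homogeneousComponent F, map_sum]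
      refine Ideal.sum_mem _ fun d _ => Ideal.subset_span ?_
      exact ⟨_, hhom F hF d, d, homogeneousComponent_isHomogeneous d F, rfl⟩
    · rw [Ideal.span_le]
      rintro G ⟨F, hF, d, -, rfl⟩
      exact Ideal.mem_map_of_mem _ hF
  rw [h1]
  refine Ideal.homogeneous_span _ _ ?_
  rintro G ⟨F, hF, d, hd, rfl⟩
  exact ⟨d, hd.map _⟩

private theorem fq_ext_hc {𝕜 L : Type*} [Field 𝕜] [Field L] [Algebra 𝕜 L]
    {r : ℕ} (P : Ideal (MvPolynomial (Fin (r+1)) 𝕜))
    (hhom : ∀ F ∈ P, ∀ d, homogeneousComponent d F ∈ P) {g : MvPolynomial (Fin (r+1)) L}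
    (hg : g ∈ extI L P) (d : ℕ) : homogeneousComponent d g ∈ extI L P :=
  homogeneousComponent_mem_of_mem (fq_ext_hom P hhom) hg d

end fq

private theorem fq_pow {𝕜 L : Type*} [Field 𝕜] [Field L] [Algebra 𝕜 L] [IsAlgClosed L]
    {r K : ℕ} (P : Ideal (MvPolynomial (Fin (r+1)) 𝕜))
    (a : Fin K → Fin (r+1) → L)
    (hcen : ∀ y : Fin (r+1) → L, (∀ F ∈ P, aeval y F = 0) → (∀ l, ∑ j, a l j * y j = 0) → y = 0) :
    ∃ N, idealOfVars (Fin (r+1)) L ^ N ≤ extI L P ⊔
      Ideal.span (Set.range fun l : Fin K => (∑ j, C (a l j) * X j : MvPolynomial (Fin (r+1)) L)) := by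
  set J := extI L P ⊔
      Ideal.span (Set.range fun l : Fin K => (∑ j, C (a l j) * X j : MvPolynomial (Fin (r+1)) L))
    with hJ
  have h1 : idealOfVars (Fin (r+1)) L ≤ J.radical := by
    rw [← vanishingIdeal_zeroLocus_eq_radical (K := L) J, Ideal.span_le]
    rintro _ ⟨m, rfl⟩ x hx
    have hx0 : x = 0 := by
      apply hcen
      · intro F hF
        have := hx (MvPolynomial.map (algebraMap 𝕜 L) F)
          (Ideal.mem_sup_left (Ideal.mem_map_of_mem _ hF))
        rwa [aeval_map_algebraMap] at this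
      · intro l
        have := hx (∑ j, C (a l j) * X j) (Ideal.mem_sup_right (Ideal.subset_span ⟨l, rfl⟩))
        simpa using this
    rw [hx0]
    simp
  obtain ⟨N, hN⟩ := Ideal.exists_radical_pow_le_of_fg J (IsNoetherian.noetherian _)
  exact ⟨N, (Ideal.pow_right_mono h1 N).trans hN⟩

private theorem fq_red {𝕜 L : Type*} [Field 𝕜] [Field L] [Algebra 𝕜 L] [IsAlgClosed L]
    {r K : ℕ} (P : Ideal (MvPolynomial (Fin (r+1)) 𝕜))
    (hhom : ∀ F ∈ P, ∀ d, homogeneousComponent d F ∈ P)
    (a : Fin K → Fin (r+1) → L) (p : Fin K → L) (N : ℕ)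
    (hN : idealOfVars (Fin (r+1)) L ^ N ≤ extI L P ⊔
      Ideal.span (Set.range fun l : Fin K => (∑ j, C (a l j) * X j : MvPolynomial (Fin (r+1)) L)))
    (D : ℕ) : ∀ g : MvPolynomial (Fin (r+1)) L, g.totalDegree ≤ D →
      ∃ g' : MvPolynomial (Fin (r+1)) L, g'.totalDegree ≤ N ∧ g - g' ∈ fibI L P a p := by
  induction D with
  | zero => exact fun g hg => ⟨g, by omega, by simp⟩
  | succ D ih =>
    intro g hg
    by_cases hDN : D + 1 ≤ N
    · exact ⟨g, hg.trans hDN, by simp⟩
    push Not at hDN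
    set top := homogeneousComponent (D + 1) g with htop
    have htopd : g - top ∈ restrictTotalDegree (Fin (r+1)) L D := by
      rw [mem_restrictTotalDegree]
      unfold totalDegree
      refine Finset.sup_le fun s hs => ?_
      have hsd : (s.sum fun _ e => e) = s.degree := rfl
      rw [mem_support_iff, coeff_sub, htop, coeff_homogeneousComponent] at hs
      by_contra hlt
      push Not at hlt
      rw [hsd] at hlt
      by_cases h3 : s.degree = D + 1
      · rw [if_pos h3, sub_self] at hs
        exact hs rfl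
      · rw [if_neg h3, sub_zero] at hs
        exact hs (coeff_eq_zero_of_totalDegree_lt (lt_of_le_of_lt hg (by
          show D + 1 < s.degree
          omega)))
    have htopN : top ∈ idealOfVars (Fin (r+1)) L ^ N := by
      rw [mem_pow_idealOfVars_iff']
      intro x hx
      rw [htop, coeff_homogeneousComponent, if_neg (by omega)]
    obtain ⟨F, hF, w, hw, hFw⟩ := Submodule.mem_sup.1 (hN htopN)
    obtain ⟨c, hc⟩ := Ideal.mem_span_range_iff_exists_fun.1 hw
    have hh : ∀ l, (∑ j, C (a l j) * X j : MvPolynomial (Fin (r+1)) L).IsHomogeneous 1 := by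
      intro l
      exact IsHomogeneous.sum _ _ _ fun j _ => isHomogeneous_C_mul_X _ _
    have htop2 : top = homogeneousComponent (D + 1) F +
        ∑ l, homogeneousComponent D (c l) * (∑ j, C (a l j) * X j) := by
      have h1 : homogeneousComponent (D + 1) top = top :=
        homogeneousComponent_eq_self (homogeneousComponent_isHomogeneous _ _)
      rw [← h1, ← hFw, map_add, ← hc, map_sum]
      congr 1
      exact Finset.sum_congr rfl fun l _ => fq_hc_mul _ _ (hh l) D
    set low : MvPolynomial (Fin (r+1)) L := ∑ l, homogeneousComponent D (c l) * C (p l) with hlow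
    have hlowd : low ∈ restrictTotalDegree (Fin (r+1)) L D := by
      refine Submodule.sum_mem _ fun l _ => ?_
      rw [mem_restrictTotalDegree]
      refine (totalDegree_mul _ _).trans ?_
      rw [totalDegree_C, add_zero]
      exact (homogeneousComponent_isHomogeneous D _).totalDegree_le
    have hmem : top - low ∈ fibI L P a p := by
      have : top - low = homogeneousComponent (D + 1) F +
          ∑ l, homogeneousComponent D (c l) * ((∑ j, C (a l j) * X j) - C (p l)) := by
        rw [htop2, hlow, add_sub_assoc, ← Finset.sum_sub_distrib]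
        simp only [mul_sub]
      rw [this]
      refine Ideal.add_mem _ (Ideal.mem_sup_left (fq_ext_hc P hhom hF _))
        (Ideal.sum_mem _ fun l _ => Ideal.mul_mem_left _ _ (Ideal.mem_sup_right
          (Ideal.subset_span ⟨l, rfl⟩)))
    have h2 : (g - top) + low ∈ restrictTotalDegree (Fin (r+1)) L D :=
      Submodule.add_mem _ htopd hlowd
    obtain ⟨g', hg', hgm⟩ := ih _ ((mem_restrictTotalDegree _ _ _).1 h2)
    refine ⟨g', hg', ?_⟩
    have : g - g' = ((g - top) + low - g') + (top - low) := by ring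
    rw [this]
    exact Ideal.add_mem _ hgm hmem

/-- TARGET -/
theorem finite_quotient {𝕜 L : Type*} [Field 𝕜] [Field L] [Algebra 𝕜 L] [IsAlgClosed L]
    {r K : ℕ} (P : Ideal (MvPolynomial (Fin (r+1)) 𝕜))
    (hhom : ∀ F ∈ P, ∀ d, homogeneousComponent d F ∈ P)
    (a : Fin K → Fin (r+1) → L)
    (hcen : ∀ y : Fin (r+1) → L, (∀ F ∈ P, aeval y F = 0) → (∀ l, ∑ j, a l j * y j = 0) → y = 0)
    (p : Fin K → L) : Module.Finite L (MvPolynomial (Fin (r+1)) L ⧸ fibI L P a p) := by
  obtain ⟨N, hN⟩ := fq_pow P a hcen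
  let φ : restrictTotalDegree (Fin (r+1)) L N →ₗ[L] (MvPolynomial (Fin (r+1)) L ⧸ fibI L P a p) :=
    (Ideal.Quotient.mkₐ L (fibI L P a p)).toLinearMap ∘ₗ Submodule.subtype _
  refine Module.Finite.of_surjective φ ?_
  intro y
  obtain ⟨g, rfl⟩ := Ideal.Quotient.mk_surjective y
  obtain ⟨g', hg', hm⟩ := fq_red P hhom a p N hN g.totalDegree g le_rfl
  refine ⟨⟨g', (mem_restrictTotalDegree _ _ _).2 hg'⟩, ?_⟩
  exact ((Ideal.Quotient.eq).2 hm).symm

end H693RF.RG
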