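import Mathlib
import Pool.Agent.Helper693.RF.Defs
import Pool.Agent.Helper26.RG.Defs

namespace H693RF.RG

open MvPolynomial


/-- TARGET -/
theorem taylor1 {L A : Type*} [Field L] [CommRing A] [Algebra L A] {m : ℕ}
    (φ φ' : MvPolynomial (Fin m) L →ₐ[L] A) (J : Ideal A) (hJ : ∀ j, φ (X j) - φ' (X j) ∈ J)
    (g : MvPolynomial (Fin m) L) :
    φ g - φ' g - ∑ j, φ' (pderiv j g) * (φ (X j) - φ' (X j)) ∈ J ^ 2 := by
  classical
  have key : (φ g - φ' g ∈ J) ∧
      (φ g - φ' g - ∑ j, φ' (pderiv j g) * (φ (X j) - φ' (X j)) ∈ J ^ 2) := by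
    induction g using MvPolynomial.induction_on with
    | C a =>
      have h1 : φ (C a) = φ' (C a) := by
        have e1 := φ.commutes a
        have e2 := φ'.commutes a
        rw [MvPolynomial.algebraMap_eq] at e1 e2
        rw [e1, e2]
      simp [h1]
    | add p q hp hq =>
      refine ⟨?_, ?_⟩
      · have : φ (p + q) - φ' (p + q) = (φ p - φ' p) + (φ q - φ' q) := by
          rw [map_add, map_add]; ring
        rw [this]; exact J.add_mem hp.1 hq.1
      · have : φ (p + q) - φ' (p + q) - ∑ j, φ' (pderiv j (p + q)) * (φ (X j) - φ' (X j)) =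
            (φ p - φ' p - ∑ j, φ' (pderiv j p) * (φ (X j) - φ' (X j))) +
            (φ q - φ' q - ∑ j, φ' (pderiv j q) * (φ (X j) - φ' (X j))) := by
          simp only [map_add, add_mul, Finset.sum_add_distrib]; ring
        rw [this]; exact (J ^ 2).add_mem hp.2 hq.2
    | mul_X p k hp =>
      refine ⟨?_, ?_⟩
      · have : φ (p * X k) - φ' (p * X k) =
            (φ p - φ' p) * φ (X k) + φ' p * (φ (X k) - φ' (X k)) := by
          rw [map_mul, map_mul]; ring
        rw [this]
        exact J.add_mem (J.mul_mem_right _ hp.1) (J.mul_mem_left _ (hJ k))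
      · have hs : ∑ j, φ' (pderiv j (p * X k)) * (φ (X j) - φ' (X j)) =
            (∑ j, φ' (pderiv j p) * (φ (X j) - φ' (X j))) * φ' (X k) +
              φ' p * (φ (X k) - φ' (X k)) := by
          have h1 : ∀ j, φ' (pderiv j (p * X k)) * (φ (X j) - φ' (X j)) =
              φ' (pderiv j p) * (φ (X j) - φ' (X j)) * φ' (X k) +
              (if j = k then φ' p * (φ (X k) - φ' (X k)) else 0) := by
            intro j
            rw [Derivation.leibniz, pderiv_X]
            by_cases h : j = k
            · subst h
              simp only [Pi.single_eq_same, smul_eq_mul, mul_one, map_add, map_mul, if_true]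
              ring
            · rw [Pi.single_eq_of_ne (by first | exact h | exact Ne.symm h), if_neg h]
              simp only [smul_eq_mul, mul_zero, map_mul, zero_add, add_zero]
              ring
          rw [Finset.sum_congr rfl (fun j _ => h1 j), Finset.sum_add_distrib, ← Finset.sum_mul,
            Finset.sum_ite_eq' Finset.univ k]
          simp
        have : φ (p * X k) - φ' (p * X k) -
            ∑ j, φ' (pderiv j (p * X k)) * (φ (X j) - φ' (X j)) =
            (φ p - φ' p - ∑ j, φ' (pderiv j p) * (φ (X j) - φ' (X j))) * φ' (X k) +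
            (φ p - φ' p) * (φ (X k) - φ' (X k)) := by
          rw [hs, map_mul, map_mul]; ring
        rw [this]
        refine (J ^ 2).add_mem ((J ^ 2).mul_mem_right _ hp.2) ?_
        rw [pow_two]
        exact Ideal.mul_mem_mul hp.1 (hJ k)
  exact key.2

end H693RF.RG
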