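import Mathlib
import Pool.Agent.Helper693.RF.Defs
import Pool.Agent.Helper26.RG.Defs
import Pool.Agent.Helper26.RG.Taylor

namespace H693RF.RG

open MvPolynomial






theorem newton_near {L : Type*} [Field L] {r n : ℕ} (ξ : Fin (r+1) → L)
    (φ : MvPolynomial (Fin (r+1)) L →ₐ[L] MvPolynomial (Fin (n+1)) L)
    (near : ∀ j, φ (X j) - C (ξ j) ∈ mI (n+1) L) (g : MvPolynomial (Fin (r+1)) L) :
    φ g - C (eval ξ g) ∈ mI (n+1) L := by
  induction g using MvPolynomial.induction_on with
  | C a =>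
    have : φ (C a) = C a := by
      have := φ.commutes a
      simpa [MvPolynomial.algebraMap_eq] using this
    rw [this, eval_C, sub_self]
    exact Ideal.zero_mem _
  | add p q hp hq =>
    have : φ (p + q) - C (eval ξ (p + q)) = (φ p - C (eval ξ p)) + (φ q - C (eval ξ q)) := by
      rw [map_add, map_add, C_add]; ring
    rw [this]
    exact Ideal.add_mem _ hp hq
  | mul_X p j hp =>
    have : φ (p * X j) - C (eval ξ (p * X j)) =
        φ (X j) * (φ p - C (eval ξ p)) + C (eval ξ p) * (φ (X j) - C (ξ j)) := by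
      rw [map_mul, map_mul, eval_X, C_mul]; ring
    rw [this]
    exact Ideal.add_mem _ (Ideal.mul_mem_left _ _ hp) (Ideal.mul_mem_left _ _ (near j))

theorem newton_base {L : Type*} [Field L] {r n q : ℕ} (ξ : Fin (r+1) → L)
    (G : Fin q → MvPolynomial (Fin (r+1)) L) (hG : ∀ i, eval ξ (G i) = 0)
    (c : Fin q → Fin (r+1)) (e : Fin (n+1) → Fin (r+1))
    (inj_e : Function.Injective e) (inj_c : Function.Injective c) (disj : ∀ a i, e a ≠ c i)
    (cover : ∀ j, (∃ a, j = e a) ∨ ∃ i, j = c i)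
    (hdet : (Matrix.of fun i j => eval ξ (pderiv (c j) (G i))).det ≠ 0) :
    ∃ φ : MvPolynomial (Fin (r+1)) L →ₐ[L] MvPolynomial (Fin (n+1)) L, LocPar ξ G c e 1 φ := by
  classical
  set f : Fin (r+1) → MvPolynomial (Fin (n+1)) L :=
    fun j => C (ξ j) + ∑ a, if j = e a then (X a : MvPolynomial (Fin (n+1)) L) else 0 with hf
  have near : ∀ j, aeval f (X j : MvPolynomial (Fin (r+1)) L) - C (ξ j) ∈ mI (n+1) L := by
    intro j
    rw [aeval_X]
    simp only [hf, add_sub_cancel_left]
    apply Ideal.sum_mem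
    intro a _
    split_ifs
    · exact Ideal.subset_span ⟨a, rfl⟩
    · exact Ideal.zero_mem _
  refine ⟨aeval f, inj_e, inj_c, disj, cover, hdet, ?_, near, ?_⟩
  · intro a
    rw [aeval_X]
    simp only [hf]
    congr 1
    rw [Finset.sum_eq_single a]
    · simp
    · intro b _ hb
      rw [if_neg]
      intro h
      exact hb (inj_e h).symm
    · intro h
      exact absurd (Finset.mem_univ a) h
  · intro i
    have := newton_near ξ (aeval f) near (G i)
    rw [hG i, C_0, sub_zero] at this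
    rw [pow_one]
    exact this

theorem newton_step {L : Type*} [Field L] {r n q : ℕ} (ξ : Fin (r+1) → L)
    (G : Fin q → MvPolynomial (Fin (r+1)) L)
    (c : Fin q → Fin (r+1)) (e : Fin (n+1) → Fin (r+1)) (T : ℕ) (hT : 1 ≤ T)
    (φ : MvPolynomial (Fin (r+1)) L →ₐ[L] MvPolynomial (Fin (n+1)) L) (h : LocPar ξ G c e T φ) :
    ∃ φ' : MvPolynomial (Fin (r+1)) L →ₐ[L] MvPolynomial (Fin (n+1)) L,
      LocPar ξ G c e (T + 1) φ' := by
  classical
  set m := mI (n+1) L with hm
  set J : Matrix (Fin q) (Fin q) L := Matrix.of fun i j => eval ξ (pderiv (c j) (G i)) with hJ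
  have hJJ : J * J⁻¹ = 1 := Matrix.mul_nonsing_inv J (isUnit_iff_ne_zero.2 h.det)
  set ε : Fin q → MvPolynomial (Fin (n+1)) L := fun j => -∑ i, C (J⁻¹ j i) * φ (G i) with hε
  have hεm : ∀ j, ε j ∈ m ^ T := by
    intro j
    apply Ideal.neg_mem_iff _ |>.2
    apply Ideal.sum_mem
    intro i _
    exact Ideal.mul_mem_left _ _ (h.van i)
  set dd : Fin (r+1) → MvPolynomial (Fin (n+1)) L := fun j => ∑ i, if j = c i then ε i else 0 with hdd
  have hddm : ∀ j, dd j ∈ m ^ T := by
    intro j
    apply Ideal.sum_mem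
    intro i _
    split_ifs
    · exact hεm i
    · exact Ideal.zero_mem _
  have hTm : m ^ T ≤ m := Ideal.pow_le_self (by omega)
  set φ' : MvPolynomial (Fin (r+1)) L →ₐ[L] MvPolynomial (Fin (n+1)) L :=
    aeval (fun j => φ (X j) + dd j) with hφ'
  have hX : ∀ j, φ' (X j) = φ (X j) + dd j := fun j => by rw [hφ', aeval_X]
  refine ⟨φ', h.inj_e, h.inj_c, h.disj, h.cover, h.det, ?_, ?_, ?_⟩
  · intro a
    rw [hX, h.free a]
    have : dd (e a) = 0 := by
      apply Finset.sum_eq_zero
      intro i _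
      rw [if_neg (h.disj a i)]
    rw [this, add_zero]
  · intro j
    rw [hX]
    have : φ (X j) + dd j - C (ξ j) = (φ (X j) - C (ξ j)) + dd j := by ring
    rw [this]
    exact Ideal.add_mem _ (h.near j) (hTm (hddm j))
  · intro i
    have hsub : ∀ j, φ' (X j) - φ (X j) = dd j := fun j => by rw [hX]; ring
    have ht := taylor1 φ' φ (m ^ T) (fun j => by rw [hsub]; exact hddm j) (G i)
    simp_rw [hsub] at ht
    have h2T : (m ^ T) ^ 2 ≤ m ^ (T + 1) := by
      rw [← pow_mul]
      exact Ideal.pow_le_pow_right (by omega)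
    have ht2 := h2T ht
    have hs : ∑ j, φ (pderiv j (G i)) * dd j = ∑ k, φ (pderiv (c k) (G i)) * ε k := by
      simp only [hdd, Finset.mul_sum]
      rw [Finset.sum_comm]
      apply Finset.sum_congr rfl
      intro k _
      rw [Finset.sum_eq_single (c k)]
      · simp
      · intro b _ hb
        rw [if_neg hb, mul_zero]
      · intro hh
        exact absurd (Finset.mem_univ _) hh
    rw [hs] at ht2
    have h3 : ∑ k, φ (pderiv (c k) (G i)) * ε k - ∑ k, C (J i k) * ε k ∈ m ^ (T + 1) := by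
      rw [← Finset.sum_sub_distrib]
      apply Ideal.sum_mem
      intro k _
      rw [← sub_mul, pow_succ']
      exact Ideal.mul_mem_mul (newton_near ξ φ h.near (pderiv (c k) (G i))) (hεm k)
    have h4 : ∑ k, C (J i k) * ε k = -φ (G i) := by
      simp only [hε, mul_neg, Finset.sum_neg_distrib, Finset.mul_sum]
      congr 1
      rw [Finset.sum_comm]
      have h5 : ∀ l, ∑ k, C (J i k) * (C (J⁻¹ k l) * φ (G l)) = C ((J * J⁻¹) i l) * φ (G l) := by
        intro l
        rw [Matrix.mul_apply, map_sum, Finset.sum_mul]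
        apply Finset.sum_congr rfl
        intro k _
        rw [C_mul]
        ring
      simp_rw [h5, hJJ]
      rw [Finset.sum_eq_single i]
      · simp
      · intro b _ hb
        rw [Matrix.one_apply_ne hb.symm, C_0, zero_mul]
      · intro hh
        exact absurd (Finset.mem_univ _) hh
    rw [h4] at h3
    have h5 : φ' (G i) = (φ' (G i) - φ (G i) - ∑ k, φ (pderiv (c k) (G i)) * ε k) +
        (∑ k, φ (pderiv (c k) (G i)) * ε k - -φ (G i)) := by ring
    rw [h5]
    exact Ideal.add_mem _ ht2 h3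

/-- TARGET -/
theorem newton {L : Type*} [Field L] {r n q : ℕ} (ξ : Fin (r+1) → L)
    (G : Fin q → MvPolynomial (Fin (r+1)) L) (hG : ∀ i, eval ξ (G i) = 0)
    (c : Fin q → Fin (r+1)) (e : Fin (n+1) → Fin (r+1))
    (inj_e : Function.Injective e) (inj_c : Function.Injective c) (disj : ∀ a i, e a ≠ c i)
    (cover : ∀ j, (∃ a, j = e a) ∨ ∃ i, j = c i)
    (hdet : (Matrix.of fun i j => eval ξ (pderiv (c j) (G i))).det ≠ 0) (T : ℕ) :
    ∃ φ : MvPolynomial (Fin (r+1)) L →ₐ[L] MvPolynomial (Fin (n+1)) L, LocPar ξ G c e T φ := by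
  rcases Nat.eq_zero_or_pos T with rfl | hT
  · obtain ⟨φ, h⟩ := newton_base (n := n) ξ G hG c e inj_e inj_c disj cover hdet
    exact ⟨φ, h.inj_e, h.inj_c, h.disj, h.cover, h.det, h.free, h.near, fun i => by
      rw [pow_zero, Ideal.one_eq_top]; exact Submodule.mem_top⟩
  · induction T, hT using Nat.le_induction with
    | base => exact newton_base (n := n) ξ G hG c e inj_e inj_c disj cover hdet
    | succ T hT ih =>
      obtain ⟨φ, h⟩ := ih
      exact newton_step ξ G c e T hT φ h

end H693RF.RG
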