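import Mathlib
import Pool.Agent.Helper693.RF.Defs
import Pool.Agent.Helper26.RG.Defs
import Pool.Agent.Helper26.RG.Taylor

namespace H693RF.RG

open MvPolynomial






/-- TARGET -/
theorem separation {L : Type*} [Field L] {r n q : ℕ} {ξ : Fin (r+1) → L}
    {G : Fin q → MvPolynomial (Fin (r+1)) L} {c : Fin q → Fin (r+1)} {e : Fin (n+1) → Fin (r+1)}
    {T : ℕ} {φ : MvPolynomial (Fin (r+1)) L →ₐ[L] MvPolynomial (Fin (n+1)) L}
    (h : LocPar ξ G c e T φ) (Q : Ideal (MvPolynomial (Fin (r+1)) L)) (hGQ : ∀ i, G i ∈ Q)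
    (g : MvPolynomial (Fin (r+1)) L) :
    g - aeval (fun a => (X (e a) : MvPolynomial (Fin (r+1)) L) - C (ξ (e a))) (φ g) ∈
      Q ⊔ ptI ξ ^ T := by
  classical
  set ψ : MvPolynomial (Fin (n+1)) L →ₐ[L] MvPolynomial (Fin (r+1)) L :=
    aeval (fun a => (X (e a) : MvPolynomial (Fin (r+1)) L) - C (ξ (e a))) with hψ
  have hψX : ∀ a, ψ (X a) = X (e a) - C (ξ (e a)) := fun a => by rw [hψ, aeval_X]
  have hmapI : Ideal.map ψ.toRingHom (mI (n+1) L) ≤ ptI ξ := by
    unfold mI
    rw [Ideal.map_span, Ideal.span_le]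
    rintro _ ⟨_, ⟨a, rfl⟩, rfl⟩
    have : ψ.toRingHom (X a) = X (e a) - C (ξ (e a)) := hψX a
    rw [this]
    exact Ideal.subset_span ⟨e a, rfl⟩
  have hψ1 : ∀ x ∈ mI (n+1) L, ψ x ∈ ptI ξ := fun x hx =>
    hmapI (Ideal.mem_map_of_mem ψ.toRingHom hx)
  have hψT : ∀ x ∈ mI (n+1) L ^ T, ψ x ∈ ptI ξ ^ T := by
    intro x hx
    have h1 : ψ.toRingHom x ∈ Ideal.map ψ.toRingHom (mI (n+1) L ^ T) :=
      Ideal.mem_map_of_mem ψ.toRingHom hx
    rw [Ideal.map_pow] at h1
    exact Ideal.pow_right_mono hmapI T h1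
  set I : Ideal (MvPolynomial (Fin (r+1)) L) := Q ⊔ ptI ξ ^ T with hI
  set α : MvPolynomial (Fin (r+1)) L →ₐ[L] (MvPolynomial (Fin (r+1)) L ⧸ I) :=
    Ideal.Quotient.mkₐ L I with hα
  set β : MvPolynomial (Fin (r+1)) L →ₐ[L] (MvPolynomial (Fin (r+1)) L ⧸ I) :=
    α.comp (ψ.comp φ) with hβ
  have hα0 : ∀ x, α x = 0 ↔ x ∈ I := fun x => by
    rw [hα]; exact Ideal.Quotient.eq_zero_iff_mem
  have hβa : ∀ x, β x = α (ψ (φ x)) := fun x => rfl
  set N : Ideal (MvPolynomial (Fin (r+1)) L ⧸ I) := Ideal.map α.toRingHom (ptI ξ) with hN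
  have hNT : N ^ T = ⊥ := by
    rw [hN, ← Ideal.map_pow, eq_bot_iff, Ideal.map_le_iff_le_comap]
    intro x hx
    rw [Ideal.mem_comap]
    have : α x = 0 := (hα0 x).2 (Ideal.mem_sup_right hx)
    exact this
  have hαN : ∀ x ∈ ptI ξ, α x ∈ N := fun x hx => Ideal.mem_map_of_mem α.toRingHom hx
  have hβN : ∀ x ∈ ptI ξ, β x ∈ N := by
    have h2 : ptI ξ ≤ Ideal.comap β.toRingHom N := by
      unfold ptI
      rw [Ideal.span_le]
      rintro _ ⟨j, rfl⟩
      change β (X j - C (ξ j)) ∈ N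
      rw [hβa]
      apply hαN
      apply hψ1
      have : φ (X j - C (ξ j)) = φ (X j) - C (ξ j) := by
        rw [map_sub]
        congr 1
        exact AlgHom.commutes φ (ξ j)
      rw [this]
      exact h.near j
    intro x hx
    exact h2 hx
  set δ : Fin (r+1) → (MvPolynomial (Fin (r+1)) L ⧸ I) := fun j => α (X j) - β (X j) with hδ
  set D : Ideal (MvPolynomial (Fin (r+1)) L ⧸ I) := Ideal.span (Set.range δ) with hD
  have hδD : ∀ j, δ j ∈ D := fun j => Ideal.subset_span ⟨j, rfl⟩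
  have hDN : D ≤ N := by
    rw [hD, Ideal.span_le]
    rintro _ ⟨j, rfl⟩
    change α (X j) - β (X j) ∈ N
    have h3 : X j - C (ξ j) ∈ ptI ξ := Ideal.subset_span ⟨j, rfl⟩
    have h4 : α (X j) - β (X j) = α (X j - C (ξ j)) - β (X j - C (ξ j)) := by
      have h5 : α (C (ξ j)) = β (C (ξ j)) := by
        have e1 : α (C (ξ j)) = algebraMap L _ (ξ j) := AlgHom.commutes α (ξ j)
        have e2 : β (C (ξ j)) = algebraMap L _ (ξ j) := AlgHom.commutes β (ξ j)
        rw [e1, e2]
      rw [map_sub, map_sub, h5]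
      ring
    rw [h4]
    exact N.sub_mem (hαN _ h3) (hβN _ h3)
  have hδe : ∀ a, δ (e a) = 0 := by
    intro a
    change α (X (e a)) - β (X (e a)) = 0
    rw [hβa, h.free a, map_add, hψX]
    have : ψ (C (ξ (e a))) = C (ξ (e a)) := AlgHom.commutes ψ (ξ (e a))
    rw [this]
    have : (C (ξ (e a)) + (X (e a) - C (ξ (e a))) : MvPolynomial (Fin (r+1)) L) = X (e a) := by
      ring
    rw [this, sub_self]
  have hαG : ∀ i, α (G i) = 0 := fun i => (hα0 _).2 (Ideal.mem_sup_left (hGQ i))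
  have hβG : ∀ i, β (G i) = 0 := by
    intro i
    rw [hβa]
    exact (hα0 _).2 (Ideal.mem_sup_right (hψT _ (h.van i)))
  have hlin : ∀ i, ∑ j, β (pderiv (c j) (G i)) * δ (c j) ∈ D ^ 2 := by
    intro i
    have h6 := taylor1 α β D hδD (G i)
    rw [hαG, hβG, sub_zero, zero_sub, neg_mem_iff] at h6
    have h7 : ∑ j, β (pderiv j (G i)) * (α (X j) - β (X j)) =
        ∑ j, β (pderiv (c j) (G i)) * δ (c j) := by
      rw [← Finset.sum_subset (Finset.subset_univ (Finset.univ.image c))]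
      · rw [Finset.sum_image (fun a _ b _ hab => h.inj_c hab)]
      · intro j _ hj
        rcases h.cover j with ⟨a, rfl⟩ | ⟨i', rfl⟩
        · have := hδe a
          change β (pderiv (e a) (G i)) * δ (e a) = 0
          rw [this, mul_zero]
        · exact absurd (Finset.mem_image_of_mem c (Finset.mem_univ i')) hj
    rwa [h7] at h6
  set M : Matrix (Fin q) (Fin q) (MvPolynomial (Fin (r+1)) L ⧸ I) :=
    Matrix.of fun i j => β (pderiv (c j) (G i)) with hM
  have hdetM : M.det = β ((Matrix.of fun i j => pderiv (c j) (G i)).det) := by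
    have := RingHom.map_det β.toRingHom (Matrix.of fun i j => pderiv (c j) (G i))
    change _ = β.toRingHom _
    rw [this]
    rfl
  have hpt : ∀ x : MvPolynomial (Fin (r+1)) L, x - C (eval ξ x) ∈ ptI ξ := by
    intro x
    have h8 : ∀ j, aeval (R := L) (X : Fin (r+1) → MvPolynomial (Fin (r+1)) L) (X j) -
        aeval (R := L) (fun j => (C (ξ j) : MvPolynomial (Fin (r+1)) L)) (X j) ∈ ptI ξ := by
      intro j
      rw [aeval_X, aeval_X]
      exact Ideal.subset_span ⟨j, rfl⟩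
    induction x using MvPolynomial.induction_on with
    | C a => simp
    | add p q hp hq =>
      have : p + q - C (eval ξ (p + q)) = (p - C (eval ξ p)) + (q - C (eval ξ q)) := by
        rw [map_add, map_add]; ring
      rw [this]; exact Ideal.add_mem _ hp hq
    | mul_X p j hp =>
      have : p * X j - C (eval ξ (p * X j)) =
          (p - C (eval ξ p)) * X j + C (eval ξ p) * (X j - C (ξ j)) := by
        rw [map_mul, eval_X, map_mul]; ring
      rw [this]
      exact Ideal.add_mem _ (Ideal.mul_mem_right _ _ hp)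
        (Ideal.mul_mem_left _ _ (Ideal.subset_span ⟨j, rfl⟩))
  have hunit : IsUnit M.det := by
    set Δ := (Matrix.of fun i j => pderiv (c j) (G i)).det with hΔ
    have h9 : eval ξ Δ ≠ 0 := by
      have : eval ξ Δ = (Matrix.of fun i j => eval ξ (pderiv (c j) (G i))).det := by
        rw [hΔ, RingHom.map_det]
        rfl
      rw [this]
      exact h.det
    rw [hdetM]
    have h10 : β Δ = algebraMap L _ (eval ξ Δ) + β (Δ - C (eval ξ Δ)) := by
      rw [map_sub]
      have : β (C (eval ξ Δ)) = algebraMap L _ (eval ξ Δ) := AlgHom.commutes β _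
      rw [this]; ring
    rw [h10]
    have h11 : IsNilpotent (β (Δ - C (eval ξ Δ))) := by
      refine ⟨T, ?_⟩
      have := Ideal.pow_mem_pow (hβN _ (hpt Δ)) T
      rw [hNT] at this
      exact this
    have h12 : IsUnit (algebraMap L (MvPolynomial (Fin (r+1)) L ⧸ I) (eval ξ Δ)) :=
      (IsUnit.mk0 _ h9).map _
    exact IsNilpotent.isUnit_add_left_of_commute h11 h12 (Commute.all _ _)
  have hδc : ∀ j, δ (c j) ∈ D ^ 2 := by
    intro j
    have h13 : M.adjugate.mulVec (M.mulVec (fun j => δ (c j))) = M.det • (fun j => δ (c j)) := by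
      rw [Matrix.mulVec_mulVec, Matrix.adjugate_mul, Matrix.smul_mulVec, Matrix.one_mulVec]
    have h14 : M.det * δ (c j) ∈ D ^ 2 := by
      have h15 := congrFun h13 j
      rw [Pi.smul_apply, smul_eq_mul] at h15
      rw [← h15]
      unfold Matrix.mulVec dotProduct
      refine Ideal.sum_mem _ fun i _ => Ideal.mul_mem_left _ _ ?_
      exact hlin i
    obtain ⟨u, hu⟩ := hunit
    rw [← hu] at h14
    have h16 : δ (c j) = (↑u⁻¹ : _) * (↑u * δ (c j)) := by
      rw [← mul_assoc, Units.inv_mul, one_mul]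
    rw [h16]
    exact Ideal.mul_mem_left _ _ h14
  have hDD : D ≤ D ^ 2 := by
    conv_lhs => rw [hD]
    rw [Ideal.span_le]
    rintro _ ⟨j, rfl⟩
    rcases h.cover j with ⟨a, rfl⟩ | ⟨i', rfl⟩
    · rw [hδe a]; exact Ideal.zero_mem _
    · exact hδc i'
  have hpow : ∀ k, D ≤ D ^ (k + 1) := by
    intro k
    induction k with
    | zero => simp
    | succ k ih =>
      calc D ≤ D ^ 2 := hDD
        _ = D * D := pow_two D
        _ ≤ D ^ (k+1) * D := Ideal.mul_mono_left ih
        _ = D ^ (k + 1 + 1) := (pow_succ D (k+1)).symm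
  have hDbot : D = ⊥ := by
    rw [eq_bot_iff]
    calc D ≤ D ^ (T + 1) := hpow T
      _ ≤ D ^ T := Ideal.pow_le_pow_right (Nat.le_succ T)
      _ ≤ N ^ T := Ideal.pow_right_mono hDN T
      _ = ⊥ := hNT
  have hαβ : α = β := by
    apply MvPolynomial.algHom_ext
    intro j
    have := hδD j
    rw [hDbot] at this
    exact sub_eq_zero.1 this
  have h17 : α (g - ψ (φ g)) = 0 := by
    rw [map_sub, sub_eq_zero, ← hβa, hαβ]
  exact (hα0 _).1 h17

end H693RF.RG
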