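import Mathlib
import Pool.Agent.Helper693.RF.Defs
import Pool.Agent.Helper26.RG.Defs

namespace H693RF.RG

open MvPolynomial




lemma va_mem_iff {n : ℕ} {L : Type*} [Field L] (N : ℕ) (p : MvPolynomial (Fin n) L) :
    p ∈ mI n L ^ N ↔ ∀ x : Fin n →₀ ℕ, Finsupp.degree x < N → p.coeff x = 0 :=
  MvPolynomial.mem_pow_idealOfVars_iff' N p

lemma va_pderiv_mem {n : ℕ} {L : Type*} [Field L] {N : ℕ} {p : MvPolynomial (Fin n) L}
    (hp : p ∈ mI n L ^ (N + 1)) (a : Fin n) : pderiv a p ∈ mI n L ^ N := by
  rw [va_mem_iff] at hp ⊢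
  intro x hx
  rw [coeff_pderiv, hp (x + Finsupp.single a 1), zero_mul]
  rw [map_add, Finsupp.degree_single]
  omega

lemma va_of_pderiv {n : ℕ} {L : Type*} [Field L] [CharZero L] {N : ℕ} {p : MvPolynomial (Fin n) L}
    (h0 : p ∈ mI n L) (hp : ∀ a, pderiv a p ∈ mI n L ^ N) : p ∈ mI n L ^ (N + 1) := by
  classical
  rw [va_mem_iff]
  intro x hx
  by_cases hx0 : x = 0
  · have h1 : p ∈ mI n L ^ 1 := by rwa [pow_one]
    rw [va_mem_iff] at h1
    apply h1
    rw [hx0]
    simp
  · obtain ⟨a, ha⟩ : ∃ a, x a ≠ 0 := by
      by_contra hcon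
      push Not at hcon
      exact hx0 (Finsupp.ext hcon)
    have hle : Finsupp.single a 1 ≤ x := by
      rw [Finsupp.single_le_iff]
      omega
    set y : Fin n →₀ ℕ := x - Finsupp.single a 1 with hy
    have hxy : y + Finsupp.single a 1 = x := tsub_add_cancel_of_le hle
    have hdeg : Finsupp.degree y + 1 = Finsupp.degree x := by
      rw [← hxy, map_add, Finsupp.degree_single]
    have h2 := (va_mem_iff N _).1 (hp a) y (by omega)
    rw [coeff_pderiv, hxy] at h2
    rcases mul_eq_zero.1 h2 with h3 | h3
    · exact h3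
    · exfalso
      have : ((y a : L) + 1) ≠ 0 := by exact_mod_cast Nat.succ_ne_zero (y a)
      exact this h3

lemma va_cancel {n : ℕ} {L : Type*} [Field L] {N : ℕ} {y u : MvPolynomial (Fin n) L} {c : L}
    (hc : c ≠ 0) (hu : u - C c ∈ mI n L) (h : y * u ∈ mI n L ^ N) : y ∈ mI n L ^ N := by
  have key : ∀ k, k ≤ N → y ∈ mI n L ^ k := by
    intro k
    induction k with
    | zero => intro _; simp
    | succ k ih =>
      intro hk
      have h1 := ih (by omega)
      have h2 : y * u ∈ mI n L ^ (k + 1) := Ideal.pow_le_pow_right hk h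
      have h3 : y * (u - C c) ∈ mI n L ^ (k + 1) := by
        rw [pow_succ]
        exact Ideal.mul_mem_mul h1 hu
      have h4 : y * C c ∈ mI n L ^ (k + 1) := by
        have : y * C c = y * u - y * (u - C c) := by ring
        rw [this]
        exact Ideal.sub_mem _ h2 h3
      have h5 := Ideal.mul_mem_right (C c⁻¹) _ h4
      rw [mul_assoc, ← C_mul, mul_inv_cancel₀ hc, C_1, mul_one] at h5
      exact h5
  exact key N le_rfl

lemma va_chain {m n : ℕ} {L : Type*} [Field L] (φ : MvPolynomial (Fin m) L →ₐ[L] MvPolynomial (Fin n) L)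
    (a : Fin n) (g : MvPolynomial (Fin m) L) :
    pderiv a (φ g) = ∑ j, φ (pderiv j g) * pderiv a (φ (X j)) := by
  induction g using MvPolynomial.induction_on with
  | C c =>
    have h1 : φ (C c) = C c := φ.commutes c
    rw [h1]
    simp
  | add p q hp hq =>
    rw [map_add, map_add, hp, hq, ← Finset.sum_add_distrib]
    refine Finset.sum_congr rfl fun j _ => ?_
    rw [map_add, map_add]
    ring
  | mul_X p i hp =>
    rw [map_mul, Derivation.leibniz, hp, smul_eq_mul, smul_eq_mul, Finset.mul_sum]
    have h1 : ∀ j, φ (pderiv j (p * X i)) * pderiv a (φ (X j)) =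
        φ (X i) * (φ (pderiv j p) * pderiv a (φ (X j))) +
          (if j = i then φ p * pderiv a (φ (X i)) else 0) := by
      intro j
      rw [Derivation.leibniz, smul_eq_mul, smul_eq_mul, map_add, map_mul, map_mul]
      by_cases hji : j = i
      · subst hji
        rw [if_pos rfl, pderiv_X_self, map_one]
        ring
      · rw [if_neg hji, pderiv_X_of_ne (Ne.symm hji), map_zero]
        ring
    rw [Finset.sum_congr rfl fun j _ => h1 j, Finset.sum_add_distrib, Finset.sum_ite_eq' Finset.univ i]
    simp only [Finset.mem_univ, if_true]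
    ring

lemma va_near {m n : ℕ} {L : Type*} [Field L] {ξ : Fin m → L}
    {φ : MvPolynomial (Fin m) L →ₐ[L] MvPolynomial (Fin n) L}
    (near : ∀ j, φ (X j) - C (ξ j) ∈ mI n L) (g : MvPolynomial (Fin m) L) :
    φ g - C (eval ξ g) ∈ mI n L := by
  induction g using MvPolynomial.induction_on with
  | C c =>
    have h1 : φ (C c) = C c := φ.commutes c
    rw [h1, eval_C, sub_self]
    exact Ideal.zero_mem _
  | add p q hp hq =>
    have : φ (p + q) - C (eval ξ (p + q)) = (φ p - C (eval ξ p)) + (φ q - C (eval ξ q)) := by
      rw [map_add, map_add, C_add]; ring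
    rw [this]
    exact Ideal.add_mem _ hp hq
  | mul_X p i hp =>
    have : φ (p * X i) - C (eval ξ (p * X i)) =
        φ (X i) * (φ p - C (eval ξ p)) + C (eval ξ p) * (φ (X i) - C (ξ i)) := by
      rw [map_mul, map_mul, eval_X, C_mul]; ring
    rw [this]
    exact Ideal.add_mem _ (Ideal.mul_mem_left _ _ hp) (Ideal.mul_mem_left _ _ (near i))

/-- TARGET -/
theorem vanish_all {L : Type*} [Field L] [CharZero L] {r n q : ℕ} {ξ : Fin (r+1) → L}
    {G : Fin q → MvPolynomial (Fin (r+1)) L} {c : Fin q → Fin (r+1)} {e : Fin (n+1) → Fin (r+1)}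
    {T : ℕ} {φ : MvPolynomial (Fin (r+1)) L →ₐ[L] MvPolynomial (Fin (n+1)) L}
    (h : LocPar ξ G c e T φ) (Q : Ideal (MvPolynomial (Fin (r+1)) L)) 
    (hQξ : ∀ F ∈ Q, eval ξ F = 0)
    (hmin : ∀ F ∈ Q, ∀ j : Fin (r+1), (Matrix.of fun (i k : Fin (q+1)) =>
      pderiv (Fin.snoc (α := fun _ => Fin (r+1)) c j k)
        (Fin.snoc (α := fun _ => MvPolynomial (Fin (r+1)) L) G F i)).det ∈ Q) :
    ∀ F ∈ Q, φ F ∈ mI (n+1) L ^ T := by
  have key : ∀ N, N ≤ T → ∀ F ∈ Q, φ F ∈ mI (n+1) L ^ N := by
    intro N
    induction N with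
    | zero => intro _ F _; simp
    | succ N ih =>
      intro hN F hF
      have ih' := ih (by omega)
      apply va_of_pderiv
      · have h1 := va_near h.near F
        rw [hQξ F hF, C_0, sub_zero] at h1
        exact h1
      · intro a
        set H : Fin (q + 1) → MvPolynomial (Fin (r+1)) L :=
          Fin.snoc (α := fun _ => MvPolynomial (Fin (r+1)) L) G F with hH
        -- cofactors along the last column
        set cof : Fin (q + 1) → MvPolynomial (Fin (r+1)) L := fun i =>
          (-1) ^ ((i : ℕ) + q) * (Matrix.of fun (i' k : Fin q) =>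
            pderiv (c k) (H (i.succAbove i'))).det with hcof
        have hdet : ∀ j : Fin (r + 1), (Matrix.of fun (i k : Fin (q+1)) =>
            pderiv (Fin.snoc (α := fun _ => Fin (r+1)) c j k) (H i)).det =
            ∑ i, pderiv j (H i) * cof i := by
          intro j
          rw [Matrix.det_succ_column _ (Fin.last q)]
          refine Finset.sum_congr rfl fun i _ => ?_
          rw [hcof]
          simp only [Matrix.of_apply, Fin.snoc_last, Fin.val_last]
          have e1 : (Matrix.of fun (i k : Fin (q+1)) =>
              pderiv (Fin.snoc (α := fun _ => Fin (r+1)) c j k) (H i)).submatrix i.succAbove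
              (Fin.last q).succAbove = (Matrix.of fun (i' k : Fin q) =>
            pderiv (c k) (H (i.succAbove i'))) := by
            ext i' k
            simp only [Matrix.submatrix_apply, Matrix.of_apply, Fin.succAbove_last,
              Fin.snoc_castSucc]
          rw [e1]
          ring
        have hsum : ∑ i, pderiv a (φ (H i)) * φ (cof i) ∈ mI (n+1) L ^ N := by
          have e2 : ∑ i, pderiv a (φ (H i)) * φ (cof i) =
              ∑ j, φ ((Matrix.of fun (i k : Fin (q+1)) =>
            pderiv (Fin.snoc (α := fun _ => Fin (r+1)) c j k) (H i)).det) *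
              pderiv a (φ (X j)) := by
            have e3 : ∀ j : Fin (r + 1), φ ((Matrix.of fun (i k : Fin (q+1)) =>
                pderiv (Fin.snoc (α := fun _ => Fin (r+1)) c j k) (H i)).det) *
                pderiv a (φ (X j)) = ∑ i, (φ (pderiv j (H i)) * pderiv a (φ (X j))) * φ (cof i) := by
              intro j
              rw [hdet j, map_sum, Finset.sum_mul]
              refine Finset.sum_congr rfl fun i _ => ?_
              rw [map_mul]
              ring
            rw [Finset.sum_congr rfl fun j _ => e3 j, Finset.sum_comm]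
            refine Finset.sum_congr rfl fun i _ => ?_
            rw [va_chain φ a (H i), Finset.sum_mul]
          rw [e2]
          refine Ideal.sum_mem _ fun j _ => Ideal.mul_mem_right _ _ ?_
          exact ih' _ (hmin F hF j)
        rw [Fin.sum_univ_castSucc] at hsum
        have hG : ∑ i : Fin q, pderiv a (φ (H i.castSucc)) * φ (cof i.castSucc) ∈
            mI (n+1) L ^ N := by
          refine Ideal.sum_mem _ fun i _ => Ideal.mul_mem_right _ _ ?_
          apply va_pderiv_mem
          have e4 : H i.castSucc = G i := by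
            rw [hH]; exact Fin.snoc_castSucc (α := fun _ => MvPolynomial (Fin (r+1)) L) F G i
          rw [e4]
          exact Ideal.pow_le_pow_right hN (h.van i)
        have hlast : pderiv a (φ (H (Fin.last q))) * φ (cof (Fin.last q)) ∈ mI (n+1) L ^ N := by
          have := Ideal.sub_mem _ hsum hG
          rwa [add_sub_cancel_left] at this
        have e5 : H (Fin.last q) = F := by
          rw [hH]; exact Fin.snoc_last (α := fun _ => MvPolynomial (Fin (r+1)) L) F G
        have e6 : cof (Fin.last q) = (Matrix.of fun (i' k : Fin q) => pderiv (c k) (G i')).det := by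
          rw [hcof]
          simp only [Fin.val_last]
          rw [Even.neg_one_pow ⟨q, rfl⟩, one_mul]
          congr 1
          ext i' k
          simp only [Matrix.of_apply, Fin.succAbove_last]
          have e4 : H i'.castSucc = G i' := by
            rw [hH]; exact Fin.snoc_castSucc (α := fun _ => MvPolynomial (Fin (r+1)) L) F G i'
          rw [e4]
        rw [e5, e6] at hlast
        refine va_cancel (c := eval ξ (Matrix.of fun (i' k : Fin q) => pderiv (c k) (G i')).det)
          ?_ (va_near h.near _) hlast
        have e7 : eval ξ (Matrix.of fun (i' k : Fin q) => pderiv (c k) (G i')).det =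
            (Matrix.of fun i j => eval ξ (pderiv (c j) (G i))).det := by
          rw [RingHom.map_det]
          rfl
        rw [e7]
        exact h.det
  exact key T le_rfl

end H693RF.RG
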