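import Mathlib
import Pool.Agent.Helper693.RF.Defs
import Pool.Agent.Helper26.RG.Defs
import Pool.Agent.Helper26.RG.Taylor
import Pool.Agent.Helper26.RG.Compl
import Pool.Agent.Helper26.RG.Newton
import Pool.Agent.Helper26.RG.Vanish
import Pool.Agent.Helper26.RG.Separation
import Pool.Agent.Helper26.RG.DerTransfer
import Pool.Agent.Helper26.RG.ExtI

namespace H693RF.RG

open MvPolynomial


theorem phi_sub_C {L : Type*} [Field L] {m n : ℕ} {ξ : Fin m → L}
    (φ : MvPolynomial (Fin m) L →ₐ[L] MvPolynomial (Fin n) L)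
    (near : ∀ j, φ (X j) - C (ξ j) ∈ mI n L) (g : MvPolynomial (Fin m) L) :
    φ g - C (eval ξ g) ∈ mI n L := by
  induction g using MvPolynomial.induction_on with
  | C a => 
    have : φ (C a) = C a := by
      rw [← algebraMap_eq, ← algebraMap_eq]; exact φ.commutes a
    simp [this]
  | add p q hp hq =>
    have : φ (p + q) - C (eval ξ (p + q)) = (φ p - C (eval ξ p)) + (φ q - C (eval ξ q)) := by
      simp; ring
    rw [this]; exact Ideal.add_mem _ hp hq
  | mul_X p j hp =>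
    have : φ (p * X j) - C (eval ξ (p * X j)) =
        φ (X j) * (φ p - C (eval ξ p)) + C (eval ξ p) * (φ (X j) - C (ξ j)) := by
      simp; ring
    rw [this]; exact Ideal.add_mem _ (Ideal.mul_mem_left _ _ hp) (Ideal.mul_mem_left _ _ (near j))

theorem phi_C {L : Type*} [Field L] {m n : ℕ}
    (φ : MvPolynomial (Fin m) L →ₐ[L] MvPolynomial (Fin n) L) (a : L) : φ (C a) = C a := by
  rw [← algebraMap_eq, ← algebraMap_eq]; exact φ.commutes a

theorem map_ptI_le {L : Type*} [Field L] {m n : ℕ} {ξ : Fin m → L}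
    (φ : MvPolynomial (Fin m) L →ₐ[L] MvPolynomial (Fin n) L)
    (near : ∀ j, φ (X j) - C (ξ j) ∈ mI n L) : (ptI ξ).map φ ≤ mI n L := by
  rw [ptI, Ideal.map_span, Ideal.span_le]
  rintro _ ⟨_, ⟨j, rfl⟩, rfl⟩
  simpa [phi_C] using near j

theorem C_mem_mI {L : Type*} [Field L] {n : ℕ} {a : L} (h : (C a : MvPolynomial (Fin n) L) ∈ mI n L) :
    a = 0 := by
  have := (MvPolynomial.C_mem_pow_idealOfVars_iff (σ := Fin n) (R := L) 1 a).1 (by simpa [mI] using h)
  simpa using this

theorem sub_C_mem_ptI {L : Type*} [Field L] {m : ℕ} (ξ : Fin m → L) (g : MvPolynomial (Fin m) L) :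
    g - C (eval ξ g) ∈ ptI ξ := by
  induction g using MvPolynomial.induction_on with
  | C a => simp
  | add p q hp hq =>
    have : (p + q) - C (eval ξ (p + q)) = (p - C (eval ξ p)) + (q - C (eval ξ q)) := by
      simp; ring
    rw [this]; exact Ideal.add_mem _ hp hq
  | mul_X p j hp =>
    have : (p * X j) - C (eval ξ (p * X j)) =
        (X j) * (p - C (eval ξ p)) + C (eval ξ p) * ((X j) - C (ξ j)) := by
      simp; ring
    rw [this]; exact Ideal.add_mem _ (Ideal.mul_mem_left _ _ hp)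
      (Ideal.mul_mem_left _ _ (Ideal.subset_span ⟨j, rfl⟩))

theorem map_ptI_eq {L : Type*} [Field L] {m n : ℕ} {ξ : Fin m → L}
    (φ : MvPolynomial (Fin m) L →ₐ[L] MvPolynomial (Fin n) L)
    (near : ∀ j, φ (X j) - C (ξ j) ∈ mI n L) (hs : Function.Surjective φ) :
    (ptI ξ).map φ = mI n L := by
  refine le_antisymm (map_ptI_le φ near) ?_
  rw [mI, Ideal.span_le]
  rintro _ ⟨a, rfl⟩
  obtain ⟨g, hg⟩ := hs (X a)
  have h1 := phi_sub_C φ near g
  rw [hg] at h1
  have h2 : (C (eval ξ g) : MvPolynomial (Fin n) L) ∈ mI n L := by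
    have h3 : (X a : MvPolynomial (Fin n) L) ∈ mI n L := Ideal.subset_span ⟨a, rfl⟩
    have := Ideal.sub_mem _ h3 h1
    simpa using this
  have h4 := C_mem_mI h2
  have h5 := Ideal.mem_map_of_mem φ (sub_C_mem_ptI ξ g)
  rw [h4] at h5
  simpa [hg] using h5

/-! local package -/
theorem local_param {𝕜 L : Type*} [Field 𝕜] [Field L] [Algebra 𝕜 L] [CharZero L] {r n q : ℕ}
    (P : Ideal (MvPolynomial (Fin (r+1)) 𝕜)) (hP : ConeData 𝕜 r n q P) (hsm : SmoothAt L q P)
    (ξ : Fin (r+1) → L) (hξ0 : ξ ≠ 0) (hξ : ∀ F ∈ P, aeval ξ F = 0) (T : ℕ) :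
    ∃ φ : MvPolynomial (Fin (r+1)) L →ₐ[L] MvPolynomial (Fin (n+1)) L,
      Function.Surjective φ ∧
      (∀ j, φ (X j) - C (ξ j) ∈ mI (n+1) L) ∧
      (∀ F ∈ extI L P, φ F ∈ mI (n+1) L ^ T) ∧
      (∀ N, N ≤ T → ∀ g, φ g ∈ mI (n+1) L ^ N → g ∈ extI L P ⊔ ptI ξ ^ N) ∧
      (∀ δ : Derivation 𝕜 L L,
        ∃ D : Derivation ℤ (MvPolynomial (Fin (n+1)) L) (MvPolynomial (Fin (n+1)) L),
        ∀ g, D (φ g) - φ (coeffDer (δ.restrictScalars ℤ) g) ∈ mI (n+1) L ^ (T-1)) ∧
      (∃ D : Derivation ℤ (MvPolynomial (Fin (n+1)) L) (MvPolynomial (Fin (n+1)) L),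
        ∀ g, D (φ g) - φ (mkDerivation L X g) ∈ mI (n+1) L ^ (T-1)) := by
  obtain ⟨G, c, hG, hdet⟩ := hsm ξ hξ0 hξ
  set G' : Fin q → MvPolynomial (Fin (r+1)) L := fun i => MvPolynomial.map (algebraMap 𝕜 L) (G i)
    with hG'
  have hdet' : (Matrix.of fun i j => eval ξ (pderiv (c j) (G' i))).det ≠ 0 := by
    have : (Matrix.of fun i j => eval ξ (pderiv (c j) (G' i))) =
        (Matrix.of fun i j => aeval ξ (pderiv (c j) (G i))) := by
      ext i j
      simp only [Matrix.of_apply, hG']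
      rw [pderiv_map, eval_map, aeval_def]
    rw [this]; exact hdet
  have hinj : Function.Injective c := by
    intro i j hij
    by_contra hne
    apply hdet'
    exact Matrix.det_zero_of_column_eq hne (fun k => by simp [hij])
  obtain ⟨e, he, hdis, hcov⟩ := exists_compl hP.hr c hinj
  have hG'Q : ∀ i, G' i ∈ extI L P := fun i => Ideal.mem_map_of_mem _ (hG i)
  have hev := extI_eval P ξ hξ
  obtain ⟨φ, hφ⟩ := newton ξ G' (fun i => hev _ (hG'Q i)) c e he hinj hdis hcov hdet' T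
  have hvan := vanish_all hφ (extI L P) hev (extI_minors P hP G hG c)
  have hle : mI (n+1) L ^ T ≤ mI (n+1) L ^ (T-1) := Ideal.pow_le_pow_right (by omega)
  refine ⟨φ, ?_, hφ.near, hvan, ?_, ?_, ?_⟩
  · intro h
    refine ⟨aeval (fun a => (X (e a) : MvPolynomial (Fin (r+1)) L) - C (ξ (e a))) h, ?_⟩
    have : (φ.comp (aeval (fun a => (X (e a) : MvPolynomial (Fin (r+1)) L) - C (ξ (e a))))) =
        AlgHom.id L _ := by
      apply MvPolynomial.algHom_ext; intro a
      simp [hφ.free, phi_C]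
    exact DFunLike.congr_fun this h
  · intro N hN g hg
    have h1 := separation hφ (extI L P) hG'Q g
    have h2 : aeval (fun a => (X (e a) : MvPolynomial (Fin (r+1)) L) - C (ξ (e a))) (φ g) ∈
        ptI ξ ^ N := by
      have h3 : (mI (n+1) L ^ N).map
          (aeval (R := L) (fun a => (X (e a) : MvPolynomial (Fin (r+1)) L) - C (ξ (e a)))) ≤
          ptI ξ ^ N := by
        rw [Ideal.map_pow]
        apply Ideal.pow_right_mono
        rw [mI, Ideal.map_span, Ideal.span_le]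
        rintro _ ⟨_, ⟨a, rfl⟩, rfl⟩
        simp only [aeval_X, SetLike.mem_coe]
        exact Ideal.subset_span ⟨e a, rfl⟩
      exact h3 (Ideal.mem_map_of_mem _ hg)
    have h4 : extI L P ⊔ ptI ξ ^ T ≤ extI L P ⊔ ptI ξ ^ N :=
      sup_le_sup_left (Ideal.pow_le_pow_right hN) _
    have h5 := Ideal.add_mem _ (h4 h1) (Ideal.mem_sup_right h2)
    simpa using h5
  · intro δ
    obtain ⟨D, hD⟩ := der_transfer hφ (δ.restrictScalars ℤ) (fun _ => 0) (fun i => by
      have h1 : (mkDerivation L (fun _ : Fin (r+1) => (0 : MvPolynomial (Fin (r+1)) L))) = 0 := by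
        apply derivation_ext; intro j; simp
      rw [h1]
      simp only [Derivation.coe_zero, Pi.zero_apply, add_zero]
      exact hle (hvan _ (extI_coeffDer P δ _ (hG'Q i))))
    refine ⟨D, fun g => ?_⟩
    have := hD g
    have h1 : (mkDerivation L (fun _ : Fin (r+1) => (0 : MvPolynomial (Fin (r+1)) L))) = 0 := by
      apply derivation_ext; intro j; simp
    rw [h1] at this
    simpa using this
  · have h0 : ∀ g : MvPolynomial (Fin (r+1)) L, coeffDer (0 : Derivation ℤ L L) g = 0 := by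
      intro g; ext s; simp [coeff_coeffDer]
    obtain ⟨D, hD⟩ := der_transfer hφ (0 : Derivation ℤ L L) X (fun i => by
      rw [h0, zero_add]
      exact hle (hvan _ (extI_euler P hP.homog _ (hG'Q i))))
    refine ⟨D, fun g => ?_⟩
    have := hD g
    rw [h0, zero_add] at this
    exact this

end H693RF.RG
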