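import Mathlib
import Pool.Agent.Helper693.RF.Defs
import Pool.Agent.Helper26.RG.Defs
import Pool.Agent.Helper26.RG.LocalParam
import Pool.Agent.Helper26.RG.DimBound
import Pool.Agent.Helper26.RG.FinQuot
import Pool.Agent.Helper26.RG.DualDer
import Pool.Agent.Helper26.RG.Centre
import Pool.Agent.Helper26.RG.Artin
import Pool.Agent.Helper26.RG.SpanPow
import Pool.Agent.Helper26.RG.AllPow

namespace H693RF.RG

open MvPolynomial


theorem totalDegree_linform_le {L : Type*} [Field L] {m : ℕ} (b : Fin m → L) :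
    (∑ j, C (b j) * X j : MvPolynomial (Fin m) L).totalDegree ≤ 1 := by
  refine (totalDegree_finsetSum _ _).trans ?_
  refine Finset.sup_le fun j _ => ?_
  refine (totalDegree_mul _ _).trans ?_
  simp

theorem totalDegree_aeval_le {L : Type*} [Field L] {m : ℕ} (v : MvPolynomial (Fin m) L)
    (hv : v.totalDegree ≤ 1) (q : Polynomial L) (d : ℕ) (hq : q.natDegree ≤ d) :
    (Polynomial.aeval v q).totalDegree ≤ d := by
  rw [Polynomial.aeval_eq_sum_range]
  refine (totalDegree_finsetSum _ _).trans ?_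
  refine Finset.sup_le fun j hj => ?_
  refine (totalDegree_smul_le _ _).trans ?_
  refine (totalDegree_pow _ _).trans ?_
  have : j ≤ d := by
    have := Finset.mem_range.1 hj; omega
  nlinarith

/-- the multiplication step -/
theorem dermem_mul {𝕜 L : Type*} [Field 𝕜] [Field L] [Algebra 𝕜 L] {r n K N : ℕ}
    (φ : MvPolynomial (Fin (r+1)) L →ₐ[L] MvPolynomial (Fin (n+1)) L)
    (a : Fin K → Fin (r+1) → L) (p : Fin K → L)
    (I : Ideal (MvPolynomial (Fin (n+1)) L)) (hI : mI (n+1) L ^ N ≤ I)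
    (δ : Derivation 𝕜 L L) (l : Fin K) (j : Fin (r+1))
    (h1 : δ (a l j) = 1) (h2 : ∀ l' j', (l, j) ≠ (l', j') → δ (a l' j') = 0)
    (D : Derivation ℤ (MvPolynomial (Fin (n+1)) L) (MvPolynomial (Fin (n+1)) L))
    (hD : ∀ g, D (φ g) - φ (coeffDer (δ.restrictScalars ℤ) g) ∈ mI (n+1) L ^ N) :
    (fun l' => (if l' = l then φ (X j) else 0) - C (δ (p l'))) ∈
      derSub I (fun l' => φ ((∑ j, C (a l' j) * X j) - C (p l'))) := by
  refine ⟨D, fun l' => ?_⟩
  have h3 : coeffDer (δ.restrictScalars ℤ) ((∑ j, C (a l' j) * X j) - C (p l')) =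
      (if l' = l then X j else 0) - C (δ (p l')) := by
    rw [map_sub, coeffDer_C, map_sum]
    congr 1
    have h4 : ∀ j' : Fin (r+1), coeffDer (δ.restrictScalars ℤ) (C (a l' j') * X j') =
        C (δ (a l' j')) * X j' := by
      intro j'
      rw [Derivation.leibniz, coeffDer_C, coeffDer_X]
      simp only [smul_eq_mul, mul_zero, zero_add, Derivation.restrictScalars_apply]
      ring
    rw [Finset.sum_congr rfl (fun j' _ => h4 j')]
    by_cases hl : l' = l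
    · subst hl
      rw [Finset.sum_eq_single j]
      · simp [h1]
      · intro j' _ hj'
        rw [h2 l' j' (by intro h; apply hj'; exact (Prod.ext_iff.1 h).2.symm)]
        simp
      · simp
    · rw [if_neg hl]
      apply Finset.sum_eq_zero
      intro j' _
      rw [h2 l' j' (by intro h; apply hl; exact (Prod.ext_iff.1 h).1.symm)]
      simp
  have h5 := hI (hD ((∑ j, C (a l' j) * X j) - C (p l')))
  rw [h3] at h5
  have h6 : φ ((if l' = l then X j else 0) - C (δ (p l'))) =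
      (if l' = l then φ (X j) else 0) - C (δ (p l')) := by
    rw [map_sub, phi_C]
    split_ifs <;> simp
  rw [h6] at h5
  have h7 := I.neg_mem h5
  rw [neg_sub] at h7
  exact h7

/-- the Euler step -/
theorem dermem_euler {L : Type*} [Field L] {r n K N : ℕ}
    (φ : MvPolynomial (Fin (r+1)) L →ₐ[L] MvPolynomial (Fin (n+1)) L)
    (a : Fin K → Fin (r+1) → L) (p : Fin K → L)
    (I : Ideal (MvPolynomial (Fin (n+1)) L)) (hI : mI (n+1) L ^ N ≤ I)
    (hfI : ∀ l', φ ((∑ j, C (a l' j) * X j) - C (p l')) ∈ I)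
    (D : Derivation ℤ (MvPolynomial (Fin (n+1)) L) (MvPolynomial (Fin (n+1)) L))
    (hD : ∀ g, D (φ g) - φ (mkDerivation L X g) ∈ mI (n+1) L ^ N) :
    (fun l' => (C (p l') : MvPolynomial (Fin (n+1)) L)) ∈
      derSub I (fun l' => φ ((∑ j, C (a l' j) * X j) - C (p l'))) := by
  refine ⟨D, fun l' => ?_⟩
  have h3 : mkDerivation L X ((∑ j, C (a l' j) * X j) - C (p l')) =
      (∑ j, C (a l' j) * X j : MvPolynomial (Fin (r+1)) L) := by
    rw [map_sub, map_sum, derivation_C, sub_zero]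
    refine Finset.sum_congr rfl fun j _ => ?_
    simp [Derivation.leibniz]
  have h5 := hI (hD ((∑ j, C (a l' j) * X j) - C (p l')))
  rw [h3] at h5
  have h6 := hfI l'
  have h7 : (C (p l') : MvPolynomial (Fin (n+1)) L) -
      D (φ ((∑ j, C (a l' j) * X j) - C (p l'))) =
      - (D (φ ((∑ j, C (a l' j) * X j) - C (p l'))) - φ (∑ j, C (a l' j) * X j)) -
      φ ((∑ j, C (a l' j) * X j) - C (p l')) := by
    rw [map_sub φ, phi_C]; ring
  have h8 : (C (p l') : MvPolynomial (Fin (n+1)) L) -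
      D (φ ((∑ j, C (a l' j) * X j) - C (p l'))) ∈ I := by
    rw [h7]
    exact I.sub_mem (I.neg_mem h5) h6
  exact h8

/-- GENERIC THEOREM (steps 1-2): for the generic projection over an algebraically closed field, with `K = n + c + 1` forms -/
theorem generic_of_local {𝕜 L : Type*} [Field 𝕜] [Field L] [Algebra 𝕜 L] [CharZero 𝕜] [IsAlgClosed L]
    {r n q c : ℕ}
    (hloc : ∀ (f : Fin (n+c+1) → MvPolynomial (Fin (n+1)) L), (∀ i, f i ∈ mI (n+1) L) →
      ∀ N : ℕ, mI (n+1) L ^ N ≤ Ideal.span (Set.range f) ⊔ mI (n+1) L ^ (N+1) →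
      ∀ s : ℕ, ¬ mI (n+1) L ^ s ≤ Ideal.span (Set.range f) ⊔ mI (n+1) L ^ N →
      (n+c+1 - (n+1)) * (s + 1) ≤ Module.finrank L ((Fin (n+c+1) → MvPolynomial (Fin (n+1)) L) ⧸
        (derSub (Ideal.span (Set.range f) ⊔ mI (n+1) L ^ N) f).restrictScalars L))
    (hc : 1 ≤ c) (P : Ideal (MvPolynomial (Fin (r+1)) 𝕜)) (hP : ConeData 𝕜 r n q P)
    (hsm : SmoothAt L q P)
    (a : Fin (n+c+1) → Fin (r+1) → L) (ha : AlgebraicIndependent 𝕜 (fun ij : Fin (n+c+1) × Fin (r+1) => a ij.1 ij.2))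
    (p : Fin (n+c+1) → L) (hp : p ≠ 0) (d : ℕ) (hd : n < c * (d + 1)) :
    ∀ g : MvPolynomial (Fin (r+1)) L, ∃ g' : MvPolynomial (Fin (r+1)) L, g'.totalDegree ≤ d ∧ g - g' ∈ fibI L P a p := by
  classical
  have : CharZero L := charZero_of_injective_algebraMap (algebraMap 𝕜 L).injective
  have hcen := centre_lemma (K := n+c+1) (by omega) P hP hsm a ha
  have hfin := finite_quotient P hP.homog a (fun y h1 h2 => hcen y h1 h2) p
  obtain ⟨Z, hZ, T0, hT1, hT2⟩ := artin_part (fibI L P a p) hfin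
  obtain ⟨Dd, hDd1, hDd2⟩ := exists_dual_derivations
    (fun ij : Fin (n+c+1) × Fin (r+1) => a ij.1 ij.2) ha
  obtain ⟨N, hN0, hN1⟩ : ∃ N, N = T0 + 1 ∧ 1 ≤ N := ⟨T0 + 1, rfl, by omega⟩
  have hhm : ∀ l, (∑ j, C (a l j) * X j) - C (p l) ∈ fibI L P a p := fun l =>
    Ideal.mem_sup_right (Ideal.subset_span ⟨l, rfl⟩)
  have hZP : ∀ ξ ∈ Z, ∀ F ∈ P, aeval ξ F = 0 := by
    intro ξ hξ F hF
    have h1 := (hZ ξ).1 hξ (MvPolynomial.map (algebraMap 𝕜 L) F)
      (Ideal.mem_sup_left (Ideal.mem_map_of_mem _ hF))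
    rwa [eval_map, ← aeval_def] at h1
  have hZh : ∀ ξ ∈ Z, ∀ l, ∑ j, a l j * ξ j = p l := by
    intro ξ hξ l
    have h1 := (hZ ξ).1 hξ _ (hhm l)
    simpa [sub_eq_zero] using h1
  have hZ0 : ∀ ξ ∈ Z, ξ ≠ 0 := by
    rintro ξ hξ rfl
    apply hp
    ext l
    rw [← hZh _ hξ l]
    simp
  have hex : ∀ ξ : Fin (r+1) → L, ∃ φ : MvPolynomial (Fin (r+1)) L →ₐ[L] MvPolynomial (Fin (n+1)) L,
      ξ ∈ Z → (Function.Surjective φ ∧
      (∀ j, φ (X j) - C (ξ j) ∈ mI (n+1) L) ∧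
      (∀ F ∈ extI L P, φ F ∈ mI (n+1) L ^ (N+1)) ∧
      (∀ N', N' ≤ N+1 → ∀ g, φ g ∈ mI (n+1) L ^ N' → g ∈ extI L P ⊔ ptI ξ ^ N') ∧
      (∀ δ : Derivation 𝕜 L L,
        ∃ D : Derivation ℤ (MvPolynomial (Fin (n+1)) L) (MvPolynomial (Fin (n+1)) L),
        ∀ g, D (φ g) - φ (coeffDer (δ.restrictScalars ℤ) g) ∈ mI (n+1) L ^ N) ∧
      (∃ D : Derivation ℤ (MvPolynomial (Fin (n+1)) L) (MvPolynomial (Fin (n+1)) L),
        ∀ g, D (φ g) - φ (mkDerivation L X g) ∈ mI (n+1) L ^ N)) := by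
    intro ξ
    by_cases hξ : ξ ∈ Z
    · obtain ⟨φ, hφ⟩ := local_param P hP hsm ξ (hZ0 ξ hξ) (hZP ξ hξ) (N+1)
      exact ⟨φ, fun _ => hφ⟩
    · exact ⟨aeval 0, fun h => absurd h hξ⟩
  choose φ hφ using hex
  set f : (Fin (r+1) → L) → Fin (n+c+1) → MvPolynomial (Fin (n+1)) L :=
    fun ξ l => φ ξ ((∑ j, C (a l j) * X j) - C (p l)) with hf
  set I : (Fin (r+1) → L) → Ideal (MvPolynomial (Fin (n+1)) L) :=
    fun ξ => Ideal.span (Set.range (f ξ)) ⊔ mI (n+1) L ^ N with hI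
  have hfI : ∀ ξ l, f ξ l ∈ I ξ := fun ξ l => Ideal.mem_sup_left (Ideal.subset_span ⟨l, rfl⟩)
  have hmIle : ∀ ξ, mI (n+1) L ^ N ≤ I ξ := fun ξ => le_sup_right
  have hfm : ∀ ξ ∈ Z, ∀ l, f ξ l ∈ mI (n+1) L := by
    intro ξ hξ l
    have h1 := phi_sub_C (φ ξ) (hφ ξ hξ).2.1 ((∑ j, C (a l j) * X j) - C (p l))
    have h2 : eval ξ ((∑ j, C (a l j) * X j) - C (p l)) = 0 := (hZ ξ).1 hξ _ (hhm l)
    rw [h2, C_0, sub_zero] at h1
    exact h1
  -- stabilisation of powers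
  have hstab : ∀ ξ ∈ Z, mI (n+1) L ^ N ≤ Ideal.span (Set.range (f ξ)) ⊔ mI (n+1) L ^ (N+1) := by
    intro ξ hξ
    obtain ⟨hs, hnear, hvan, -⟩ := hφ ξ hξ
    have h1 := Ideal.map_mono (f := φ ξ) (hT2 ξ N (by omega))
    rw [Ideal.map_pow, map_ptI_eq (φ ξ) hnear hs, Ideal.map_sup, Ideal.map_pow,
      map_ptI_eq (φ ξ) hnear hs] at h1
    refine h1.trans (sup_le ?_ le_sup_right)
    rw [fibI, Ideal.map_sup]
    refine sup_le ?_ ?_
    · refine le_trans ?_ le_sup_right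
      rw [Ideal.map_le_iff_le_comap]
      intro F hF
      exact hvan F hF
    · refine le_trans ?_ le_sup_left
      rw [Ideal.map_span, Ideal.span_le]
      rintro _ ⟨_, ⟨l, rfl⟩, rfl⟩
      exact Ideal.subset_span ⟨l, rfl⟩
  -- dimension bound
  have hbound := dimension_bound (N := N) Z φ f I (fun ξ hξ => (hφ ξ hξ).1)
    (fun ξ hξ => (hφ ξ hξ).2.1) (fun ξ _ => hmIle ξ)
    (fun l j => ⟨fun l' => Dd (l, j) (p l'), fun ξ hξ => by
      obtain ⟨D, hD⟩ := (hφ ξ hξ).2.2.2.2.1 (Dd (l, j))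
      exact dermem_mul (φ ξ) a p (I ξ) (hmIle ξ) (Dd (l, j)) l j (hDd1 (l, j))
        (fun l' j' h => hDd2 (l, j) (l', j') h) D hD⟩) p hp
    (fun ξ hξ => by
      obtain ⟨D, hD⟩ := (hφ ξ hξ).2.2.2.2.2
      exact dermem_euler (φ ξ) a p (I ξ) (hmIle ξ) (fun l => hfI ξ l) D hD)
  -- main step
  apply all_of_powers
  intro b
  set v : MvPolynomial (Fin (r+1)) L := ∑ j, C (b j) * X j with hv
  have hexe : ∀ ξ, ξ ∈ Z → ∃ e, φ ξ ((v - C (eval ξ v)) ^ e) ∈ I ξ := by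
    intro ξ hξ
    refine ⟨N, hmIle ξ ?_⟩
    rw [map_pow]
    apply Ideal.pow_mem_pow
    rw [map_sub, phi_C]
    exact phi_sub_C (φ ξ) (hφ ξ hξ).2.1 v
  set e : (Fin (r+1) → L) → ℕ := fun ξ => if h : ξ ∈ Z then Nat.find (hexe ξ h) else 0 with he
  have he1 : ∀ ξ ∈ Z, φ ξ ((v - C (eval ξ v)) ^ e ξ) ∈ I ξ := by
    intro ξ hξ
    simp only [he, dif_pos hξ]
    exact Nat.find_spec (hexe ξ hξ)
  have he2 : ∀ ξ ∈ Z, ∀ s, s < e ξ → φ ξ ((v - C (eval ξ v)) ^ s) ∉ I ξ := by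
    intro ξ hξ s hs
    simp only [he, dif_pos hξ] at hs
    exact Nat.find_min (hexe ξ hξ) hs
  have he3 : ∀ ξ ∈ Z, c * e ξ ≤ Module.finrank L ((Fin (n+c+1) → MvPolynomial (Fin (n+1)) L) ⧸
      (derSub (I ξ) (f ξ)).restrictScalars L) := by
    intro ξ hξ
    rcases Nat.eq_zero_or_pos (e ξ) with h0 | hpos
    · rw [h0]; simp
    · obtain ⟨s, hs⟩ : ∃ s, e ξ = s + 1 := ⟨e ξ - 1, by omega⟩
      have h1 : ¬ mI (n+1) L ^ s ≤ Ideal.span (Set.range (f ξ)) ⊔ mI (n+1) L ^ N := by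
        intro hle
        apply he2 ξ hξ s (by omega)
        apply hle
        rw [map_pow]
        apply Ideal.pow_mem_pow
        rw [map_sub, phi_C]
        exact phi_sub_C (φ ξ) (hφ ξ hξ).2.1 v
      have h2 := hloc (f ξ) (hfm ξ hξ) N (hstab ξ hξ) s h1
      rw [hs]
      have h3 : n + c + 1 - (n + 1) = c := by omega
      rw [h3] at h2
      exact h2
  have hsum : ∑ ξ ∈ Z, e ξ ≤ d + 1 := by
    have h1 : c * ∑ ξ ∈ Z, e ξ ≤ n + c := by
      rw [Finset.mul_sum]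
      have := Finset.sum_le_sum he3
      omega
    have h2 : c * ∑ ξ ∈ Z, e ξ < c * (d + 2) := by
      have : c * (d + 2) = c * (d + 1) + c := by ring
      omega
    have := Nat.lt_of_mul_lt_mul_left h2
    omega
  -- the product lies in the ideal
  have hprod : ∏ ξ ∈ Z, (v - C (eval ξ v)) ^ e ξ ∈ fibI L P a p := by
    apply hT1
    intro ξ hξ
    obtain ⟨hs, hnear, hvan, hsep, -⟩ := hφ ξ hξ
    have h1 : (v - C (eval ξ v)) ^ e ξ ∈ fibI L P a p ⊔ ptI ξ ^ T0 := by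
      have h2 := he1 ξ hξ
      rw [hI] at h2
      obtain ⟨y, hy, z, hz, hyz⟩ := Submodule.mem_sup.1 h2
      have h3 : y ∈ (Ideal.span (Set.range fun l : Fin (n+c+1) =>
          (∑ j, C (a l j) * X j : MvPolynomial (Fin (r+1)) L) - C (p l))).map (φ ξ) := by
        rw [Ideal.map_span]
        have h4 : (φ ξ) '' (Set.range fun l : Fin (n+c+1) =>
          (∑ j, C (a l j) * X j : MvPolynomial (Fin (r+1)) L) - C (p l)) = Set.range (f ξ) := by
          rw [← Set.range_comp]; rfl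
        rw [h4]; exact hy
      obtain ⟨y', hy', hy2⟩ := (Ideal.mem_map_iff_of_surjective (φ ξ) hs).1 h3
      have h5 : φ ξ ((v - C (eval ξ v)) ^ e ξ - y') ∈ mI (n+1) L ^ N := by
        rw [map_sub, hy2, ← hyz]; simpa using hz
      have h6 := hsep N (by omega) _ h5
      have h7 : extI L P ⊔ ptI ξ ^ N ≤ fibI L P a p ⊔ ptI ξ ^ T0 :=
        sup_le_sup le_sup_left (Ideal.pow_le_pow_right (by omega))
      have h8 := Ideal.add_mem _ (h7 h6) (Ideal.mem_sup_left (Ideal.mem_sup_right hy') :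
        y' ∈ fibI L P a p ⊔ ptI ξ ^ T0)
      simpa using h8
    rw [← Finset.mul_prod_erase Z _ hξ]
    exact Ideal.mul_mem_right _ _ h1
  -- conclusion
  set Q : Polynomial L := (∏ ξ ∈ Z, (Polynomial.X - Polynomial.C (eval ξ v)) ^ e ξ) *
    Polynomial.X ^ (d + 1 - ∑ ξ ∈ Z, e ξ) with hQ
  have hQm1 : (∏ ξ ∈ Z, (Polynomial.X - Polynomial.C (eval ξ v)) ^ e ξ).Monic :=
    Polynomial.monic_prod_of_monic _ _ fun ξ _ => (Polynomial.monic_X_sub_C _).pow _
  have hQm : Q.Monic := hQm1.mul (Polynomial.monic_X_pow _)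
  have hQd : Q.natDegree = d + 1 := by
    rw [hQ, hQm1.natDegree_mul (Polynomial.monic_X_pow _), Polynomial.natDegree_X_pow,
      Polynomial.natDegree_prod_of_monic _ _ fun ξ _ => (Polynomial.monic_X_sub_C _).pow _]
    have : ∑ i ∈ Z, ((Polynomial.X - Polynomial.C (eval i v)) ^ e i).natDegree = ∑ i ∈ Z, e i := by
      refine Finset.sum_congr rfl fun i _ => ?_
      rw [(Polynomial.monic_X_sub_C (eval i v)).natDegree_pow, Polynomial.natDegree_X_sub_C, mul_one]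
    rw [this]; omega
  refine ⟨Polynomial.aeval v (Polynomial.X ^ (d+1) - Q), ?_, ?_⟩
  · apply totalDegree_aeval_le _ (totalDegree_linform_le b)
    have hlt : (Polynomial.X ^ (d+1) - Q).degree < (Polynomial.X ^ (d+1) : Polynomial L).degree := by
      apply Polynomial.degree_sub_lt_left
      · rw [Polynomial.degree_X_pow, Polynomial.degree_eq_natDegree hQm.ne_zero, hQd]
      · exact pow_ne_zero _ Polynomial.X_ne_zero
      · rw [hQm.leadingCoeff, (Polynomial.monic_X_pow _).leadingCoeff]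
    rw [Polynomial.degree_X_pow] at hlt
    rw [Polynomial.natDegree_le_iff_coeff_eq_zero]
    intro M hM
    exact Polynomial.coeff_eq_zero_of_degree_lt (lt_of_lt_of_le hlt (by exact_mod_cast hM))
  · have h1 : v ^ (d+1) - Polynomial.aeval v (Polynomial.X ^ (d+1) - Q) = Polynomial.aeval v Q := by
      simp
    rw [h1, hQ, map_mul]
    apply Ideal.mul_mem_right
    have h2 : Polynomial.aeval v (∏ ξ ∈ Z, (Polynomial.X - Polynomial.C (eval ξ v)) ^ e ξ) =
        ∏ ξ ∈ Z, (v - C (eval ξ v)) ^ e ξ := by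
      rw [map_prod]
      refine Finset.prod_congr rfl fun ξ _ => ?_
      simp [algebraMap_eq]
    rw [h2]
    exact hprod

end H693RF.RG
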