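import Mathlib
import Pool.Agent.Helper693.RF.Defs
import Pool.Agent.Helper693.RF.LocalThm
import Pool.Agent.Helper26.RG.Generic

namespace H693RF

open MvPolynomial

/-- GENERIC THEOREM: for the generic projection over an algebraically closed field, with
`K = n + c + 1` forms -/
theorem generic_theorem {𝕜 L : Type*} [Field 𝕜] [Field L] [Algebra 𝕜 L] [CharZero 𝕜] [IsAlgClosed L]
    {r n q c : ℕ} (hc : 1 ≤ c) (P : Ideal (MvPolynomial (Fin (r+1)) 𝕜)) (hP : ConeData 𝕜 r n q P)
    (hsm : SmoothAt L q P)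
    (a : Fin (n+c+1) → Fin (r+1) → L)
    (ha : AlgebraicIndependent 𝕜 (fun ij : Fin (n+c+1) × Fin (r+1) => a ij.1 ij.2))
    (p : Fin (n+c+1) → L) (hp : p ≠ 0) (d : ℕ) (hd : n < c * (d + 1)) :
    ∀ g : MvPolynomial (Fin (r+1)) L, ∃ g' : MvPolynomial (Fin (r+1)) L,
      g'.totalDegree ≤ d ∧ g - g' ∈ fibI L P a p := by
  have : CharZero L := charZero_of_injective_algebraMap (algebraMap 𝕜 L).injective
  exact RG.generic_of_local (fun f hf N hN s hs =>
    (local_theorem (n := n+1) (k := n+c+1) (by omega) (by omega) f hf N hN s hs).2)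
    hc P hP hsm a ha p hp d hd

end H693RF
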